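import Pool.Agent.H916Q.Main

/-!
# Assembly
-/

set_option linter.unusedSectionVars false

namespace Pool.Agent.H916Q

open Finset Pool.Agent.H916R2 Pool.Agent.H916T Pool.Agent.H916U Pool.Agent.H916Z

lemma supp_unit {m : ℕ} (S : Finset ℕ) (t : (ZMod m)ˣ) (a : ZMod m) :
    Supp S ((t : ZMod m) * a) ↔ Supp S a := by
  have h3 : ∀ k : ℕ, k • ((t : ZMod m) * a) = 0 ↔ k • a = 0 := by
    intro k
    rw [nsmul_eq_mul, nsmul_eq_mul, mul_left_comm]
    exact t.isUnit.mul_right_eq_zero
  have h4 : addOrderOf ((t : ZMod m) * a) = addOrderOf a := by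
    apply Nat.dvd_antisymm
    · rw [addOrderOf_dvd_iff_nsmul_eq_zero, h3]
      exact addOrderOf_nsmul_eq_zero _
    · rw [addOrderOf_dvd_iff_nsmul_eq_zero, ← h3]
      exact addOrderOf_nsmul_eq_zero _
  unfold Supp
  rw [h4]

lemma even_order_of_odd_val {n : ℕ} (hn : 0 < n) (hn2 : ¬ 2 ∣ n) (a : ZMod (2 * n))
    (ha : ¬ 2 ∣ a.val) : 2 ∣ addOrderOf a := by
  have hz : NeZero (2 * n) := ⟨(Nat.mul_pos two_pos hn).ne'⟩
  rw [addOrderOf_eq]
  set g := Nat.gcd a.val (2 * n) with hg
  have h1 : g ∣ 2 * n := Nat.gcd_dvd_right _ _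
  have h2 : ¬ 2 ∣ g := fun h => ha (h.trans (Nat.gcd_dvd_left _ _))
  obtain ⟨e, he⟩ := h1
  have hg0 : 0 < g := Nat.gcd_pos_of_pos_right _ (NeZero.pos _)
  rw [he, Nat.mul_div_cancel_left e hg0]
  have h3 : 2 ∣ g * e := by rw [← he]; exact Dvd.intro n rfl
  exact (Nat.prime_two.dvd_mul.mp h3).resolve_left h2

/-- passing to the odd level, with parities -/
lemma oddize2 {k : ℕ} (hk : k = 1 ∨ k = 2) (n n1 : ℕ) (hn : 0 < n) (hn2 : ¬ 2 ∣ n)
    (hkn : k * n = n1) (B : Multiset (ZMod n1)) :
    ∃ B' : Multiset (ZMod n), (∀ (Q : Type) [AddCommGroup Q] (g : ZMod n1 → Q), OD g →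
        2 • (B.map g).sum = 2 • (B'.map fun b => g (iota k b)).sum) ∧
      ∀ S : Finset ℕ, 2 ∉ S → (Even (B'.countP (Supp S)) ↔ Even (B.countP (Supp S))) := by
  have hz : NeZero n := ⟨hn.ne'⟩
  rcases hk with rfl | rfl
  · rw [one_mul] at hkn
    subst hkn
    refine ⟨B, fun Q _ g _ => ?_, fun S _ => Iff.rfl⟩
    simp only [H916T.iota_one]
  · subst hkn
    have hz2 : NeZero (2 * n) := ⟨(Nat.mul_pos two_pos hn).ne'⟩
    induction B using Multiset.induction_on with
    | empty => exact ⟨0, fun Q _ g _ => by simp, fun S _ => by simp⟩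
    | cons a B ih =>
      obtain ⟨B', hB', hB2⟩ := ih
      by_cases ha : 2 ∣ a.val
      · obtain ⟨x, hx⟩ := ha
        have hax : a = iota 2 (x : ZMod n) := by
          rw [iota_natCast rfl, ← hx, ZMod.natCast_zmod_val]
        refine ⟨(x : ZMod n) ::ₘ B', fun Q _ g hg => ?_, fun S hS => ?_⟩
        · rw [Multiset.map_cons, Multiset.sum_cons, Multiset.map_cons, Multiset.sum_cons,
            smul_add, smul_add, hB' Q g hg, ← hax]
        · have h1 : Supp S (x : ZMod n) ↔ Supp S a := by
            unfold Supp
            rw [hax, addOrderOf_iota rfl]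
          rw [Multiset.countP_cons, Multiset.countP_cons, Nat.even_add, Nat.even_add, hB2 S hS]
          by_cases h2 : Supp S a
          · rw [if_pos h2, if_pos (h1.mpr h2)]
          · rw [if_neg h2, if_neg (fun h => h2 (h1.mp h))]
      · obtain ⟨y, hy⟩ : 2 ∣ a.val + n := by omega
        refine ⟨(((2 : ℕ) : ZMod n) * (y : ZMod n)) ::ₘ (-(y : ZMod n)) ::ₘ B',
          fun Q _ g hg => ?_, fun S hS => ?_⟩
        · set b : ZMod (2 * n) := iota 2 (y : ZMod n) with hb
          have hb' : b = ((2 * y : ℕ) : ZMod (2 * n)) := iota_natCast rfl y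
          have h2m : (n : ZMod (2 * n)) + (n : ZMod (2 * n)) = 0 := by
            have : ((2 * n : ℕ) : ZMod (2 * n)) = 0 := by simp
            rw [← this]; push_cast; ring
          have hab : a = b + (n : ZMod (2 * n)) := by
            have h1 : ((a.val + n : ℕ) : ZMod (2 * n)) = ((2 * y : ℕ) : ZMod (2 * n)) := by
              rw [hy]
            rw [← hb'] at h1
            push_cast at h1
            rw [ZMod.natCast_zmod_val] at h1
            linear_combination h1 - h2m
          have h2b : 2 * b = iota 2 (((2 : ℕ) : ZMod n) * (y : ZMod n)) := by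
            rw [iota_natMul rfl]; push_cast; rfl
          have h1 := hg.two n rfl b
          have h2 := hg.half (rfl : 2 * n = 2 * n)
          rw [← hab] at h1
          have h3 : g a = g (2 * b) + g (n : ZMod (2 * n)) - g b := by rw [← h1]; abel
          have h4 : 2 • g (n : ZMod (2 * n)) = 0 := by rw [two_nsmul]; exact h2
          rw [Multiset.map_cons, Multiset.sum_cons, Multiset.map_cons, Multiset.sum_cons,
            Multiset.map_cons, Multiset.sum_cons, smul_add, smul_add, smul_add, hB' Q g hg,
            iota_neg rfl, hg.neg, ← hb, ← h2b, h3, smul_sub, smul_add, h4, smul_neg]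
          abel
        · have hcop : Nat.Coprime 2 n := (Nat.prime_two.coprime_iff_not_dvd).mpr hn2
          have h1 : Supp S (((2 : ℕ) : ZMod n) * (y : ZMod n)) ↔ Supp S (y : ZMod n) := by
            have := supp_unit S (ZMod.unitOfCoprime 2 hcop) (y : ZMod n)
            rwa [ZMod.coe_unitOfCoprime] at this
          have h2 : Supp S (-(y : ZMod n)) ↔ Supp S (y : ZMod n) := by
            have := supp_unit S (-1 : (ZMod n)ˣ) (y : ZMod n)
            rwa [Units.val_neg, Units.val_one, neg_one_mul] at this
          have h3 : ¬ Supp S a := by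
            intro h
            apply hS
            rw [← h]
            exact Nat.mem_primeFactors.mpr ⟨Nat.prime_two, even_order_of_odd_val hn hn2 a ha,
              (addOrderOf_pos a).ne'⟩
          rw [Multiset.countP_cons, Multiset.countP_cons, Multiset.countP_cons, if_neg h3,
            add_zero, ← hB2 S hS]
          by_cases h4 : Supp S (y : ZMod n)
          · rw [if_pos (h1.mpr h4), if_pos (h2.mpr h4)]
            rw [Nat.even_add_one, Nat.even_add_one, not_not]
          · rw [if_neg (fun h => h4 (h1.mp h)), if_neg (fun h => h4 (h2.mp h)), add_zero,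
              add_zero]

variable {p : ℕ}

theorem parity_all {m n k : ℕ} (hn : 0 < n) (hk : k = 1 ∨ k = 2) (hkn : k * n = m)
    (hn2 : ¬ 2 ∣ n) (hp : p.Coprime m) (hf : Odd (orderOf (p : ZMod m))) (hQR : PQR n)
    {s : Multiset (ZMod m)} (hs : Rel0 p s) (S : Finset ℕ) (hS : S.Nonempty) (h2S : 2 ∉ S) :
    Even (s.countP (Supp S)) := by
  have hk0 : 0 < k := by omega
  have hm : 0 < m := by rw [← hkn]; exact Nat.mul_pos hk0 hn
  have hz : NeZero n := ⟨hn.ne'⟩
  have hz1 : NeZero m := ⟨hm.ne'⟩
  have hnm : n ∣ m := Dvd.intro_left k hkn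
  have hpn : p.Coprime n := Nat.Coprime.coprime_dvd_right hnm hp
  obtain ⟨s', hs', hs2⟩ := oddize2 hk n m hn hn2 hkn s
  have hrel : Rel0 p s' := by
    intro t0
    obtain ⟨t, ht⟩ := ZMod.unitsMap_surjective hnm t0
    have h1 := hs' ℤ _ (W_iod hp t).iod.od
    rw [hs t] at h1
    obtain ⟨r, hr00, hr⟩ := W_iota' (k := k) (m0 := n) (m := m) hp hkn
    have h3 : ∀ x : ZMod n, W p ((t : ZMod m) * iota k x) =
        (k : ℤ) * (r : ℤ) * W p ((t0 : ZMod n) * x) := by
      intro x
      rw [unit_iota hkn, hr, ht]
    simp only [h3] at h1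
    rw [Multiset.sum_map_mul_left] at h1
    simpa [hr00.ne', hk0.ne'] using h1.symm
  have hfn : Odd (orderOf (p : ZMod n)) := by
    have h1 : orderOf (p : ZMod n) ∣ orderOf (p : ZMod m) := by
      apply orderOf_dvd_of_pow_eq_one
      have h2 := congrArg (ZMod.castHom hnm (ZMod n)) (H916T.pow_order (m := m) p)
      rwa [map_pow, map_natCast, map_one] at h2
    exact Odd.of_dvd_nat hf h1
  exact (hs2 S h2S).mp (parity_odd hn2 hpn hfn hQR hrel S hS)

/-- parities and keys -/
lemma even_of_key {α β : Type} [DecidableEq β] (κ : α → β) (P : α → Prop) [DecidablePred P] :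
    ∀ (n : ℕ) (s : Multiset α), Multiset.card s = n → (∀ K, Even (s.countP fun a => κ a = K)) →
      (∀ a ∈ s, ∀ b ∈ s, κ a = κ b → (P a ↔ P b)) → Even (s.countP P) := by
  intro n
  induction n using Nat.strong_induction_on with
  | _ n ih =>
  intro s hs hcount hP
  rcases Multiset.empty_or_exists_mem s with rfl | ⟨a, ha⟩
  · simp
  obtain ⟨s1, hs1⟩ := Multiset.exists_cons_of_mem ha
  have h1 := hcount (κ a)
  rw [hs1, Multiset.countP_cons, if_pos rfl] at h1
  have h2 : 0 < s1.countP (fun b => κ b = κ a) := by
    rcases Nat.eq_zero_or_pos (s1.countP (fun b => κ b = κ a)) with h | h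
    · rw [h] at h1; exact absurd h1 (by decide)
    · exact h
  obtain ⟨b, hb, hab⟩ := Multiset.countP_pos.mp h2
  obtain ⟨s2, hs2⟩ := Multiset.exists_cons_of_mem hb
  have hc : Multiset.card s2 + 2 = n := by
    rw [← hs, hs1, hs2]; simp
  have h3 : ∀ K, Even (s2.countP (fun x => κ x = K)) := by
    intro K
    have h4 := hcount K
    rw [hs1, hs2, Multiset.countP_cons, Multiset.countP_cons] at h4
    by_cases h6 : κ a = K
    · rw [if_pos h6, if_pos (hab.trans h6)] at h4
      rw [Nat.even_add_one, Nat.even_add_one, not_not] at h4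
      exact h4
    · rw [if_neg h6, if_neg (fun h => h6 (hab.symm.trans h))] at h4
      simpa using h4
  have hbs : b ∈ s := by rw [hs1, hs2]; simp
  have h7 := ih (Multiset.card s2) (by omega) s2 rfl h3 (fun x hx y hy => hP x
    (by rw [hs1, hs2]; simp [hx]) y (by rw [hs1, hs2]; simp [hy]))
  have h8 := hP a ha b hbs hab.symm
  rw [hs1, hs2, Multiset.countP_cons, Multiset.countP_cons]
  by_cases h9 : P a
  · rw [if_pos h9, if_pos (h8.mp h9), Nat.even_add_one, Nat.even_add_one, not_not]
    exact h7
  · rw [if_neg h9, if_neg (fun h => h9 (h8.mpr h))]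
    exact h7

open scoped Classical in
theorem link_parity {m : ℕ} [NeZero m] {s : Multiset (ZMod m)} (h0 : (0 : ZMod m) ∉ s)
    (hcard : Even (Multiset.card s))
    (hpar : ∀ S : Finset ℕ, S.Nonempty → 2 ∉ S → Even (s.countP (Supp S))) (a : ZMod m) :
    Even (s.countP (fun b => Relation.EqvGen (Link p) a b)) := by
  -- the elements of odd order
  have hodd : Even ((s.filter fun b => ¬ 2 ∣ addOrderOf b).countP fun _ => True) := by
    refine even_of_key (fun b : ZMod m => (addOrderOf b).primeFactors) _ _ _ rfl ?_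
      (fun _ _ _ _ _ => Iff.rfl)
    intro K
    rw [Multiset.countP_filter]
    by_cases h2 : 2 ∈ K
    · have h1 : s.countP (fun b => (addOrderOf b).primeFactors = K ∧ ¬ 2 ∣ addOrderOf b) = 0 := by
        rw [Multiset.countP_eq_zero]
        rintro b _ ⟨hb, hb2⟩
        rw [← hb] at h2
        exact hb2 (Nat.mem_primeFactors.mp h2).2.1
      rw [h1]; exact Even.zero
    · rcases K.eq_empty_or_nonempty with hK | hK
      · have h1 : s.countP (fun b => (addOrderOf b).primeFactors = K ∧ ¬ 2 ∣ addOrderOf b) = 0 := by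
          rw [Multiset.countP_eq_zero]
          rintro b hb ⟨hb1, _⟩
          rw [hK, Nat.primeFactors_eq_empty] at hb1
          rcases hb1 with h | h
          · exact (addOrderOf_pos b).ne' h
          · rw [AddMonoid.addOrderOf_eq_one_iff] at h
            rw [h] at hb
            exact h0 hb
        rw [h1]; exact Even.zero
      · have h1 : s.countP (fun b => (addOrderOf b).primeFactors = K ∧ ¬ 2 ∣ addOrderOf b) =
            s.countP (Supp K) := by
          apply Multiset.countP_congr rfl
          intro b _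
          simp only [eq_iff_iff]
          constructor
          · exact fun h => h.1
          · intro h
            refine ⟨h, fun h' => h2 ?_⟩
            rw [← h]
            exact Nat.mem_primeFactors.mpr ⟨Nat.prime_two, h', (addOrderOf_pos b).ne'⟩
        rw [h1]
        exact hpar K hK h2
  have heven : Even (s.countP fun b => 2 ∣ addOrderOf b) := by
    have h1 := Multiset.card_eq_countP_add_countP (fun b : ZMod m => 2 ∣ addOrderOf b) s
    rw [Multiset.countP_True, ← Multiset.countP_eq_card_filter] at hodd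
    rw [h1] at hcard
    exact (Nat.even_add.mp hcard).mpr hodd
  refine even_of_key (fun b : ZMod m => if 2 ∣ addOrderOf b then ({2} : Finset ℕ) else
    (addOrderOf b).primeFactors) _ _ s rfl ?_ ?_
  · intro K
    by_cases hK2 : K = {2}
    · have h1 : s.countP (fun b => (if 2 ∣ addOrderOf b then ({2} : Finset ℕ) else
          (addOrderOf b).primeFactors) = K) = s.countP (fun b => 2 ∣ addOrderOf b) := by
        apply Multiset.countP_congr rfl
        intro b _
        simp only [eq_iff_iff]
        constructor
        · intro h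
          by_contra h'
          rw [if_neg h', hK2] at h
          have h3 : 2 ∈ (addOrderOf b).primeFactors := by rw [h]; simp
          exact h' (Nat.mem_primeFactors.mp h3).2.1
        · intro h
          rw [if_pos h, hK2]
      rw [h1]; exact heven
    · have h1 : s.countP (fun b => (if 2 ∣ addOrderOf b then ({2} : Finset ℕ) else
          (addOrderOf b).primeFactors) = K) =
          s.countP (fun b => (addOrderOf b).primeFactors = K ∧ ¬ 2 ∣ addOrderOf b) := by
        apply Multiset.countP_congr rfl
        intro b _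
        simp only [eq_iff_iff]
        constructor
        · intro h
          by_cases h' : 2 ∣ addOrderOf b
          · rw [if_pos h'] at h; exact absurd h.symm hK2
          · rw [if_neg h'] at h; exact ⟨h, h'⟩
        · rintro ⟨h, h'⟩
          rw [if_neg h']; exact h
      rw [h1]
      by_cases h2 : 2 ∈ K
      · have h1 : s.countP (fun b => (addOrderOf b).primeFactors = K ∧ ¬ 2 ∣ addOrderOf b) = 0 := by
          rw [Multiset.countP_eq_zero]
          rintro b _ ⟨hb, hb2⟩
          rw [← hb] at h2
          exact hb2 (Nat.mem_primeFactors.mp h2).2.1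
        rw [h1]; exact Even.zero
      · rcases K.eq_empty_or_nonempty with hK | hK
        · have h1 : s.countP
              (fun b => (addOrderOf b).primeFactors = K ∧ ¬ 2 ∣ addOrderOf b) = 0 := by
            rw [Multiset.countP_eq_zero]
            rintro b hb ⟨hb1, _⟩
            rw [hK, Nat.primeFactors_eq_empty] at hb1
            rcases hb1 with h | h
            · exact (addOrderOf_pos b).ne' h
            · rw [AddMonoid.addOrderOf_eq_one_iff] at h
              rw [h] at hb
              exact h0 hb
          rw [h1]; exact Even.zero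
        · have h1 : s.countP (fun b => (addOrderOf b).primeFactors = K ∧ ¬ 2 ∣ addOrderOf b) =
              s.countP (Supp K) := by
            apply Multiset.countP_congr rfl
            intro b _
            simp only [eq_iff_iff]
            constructor
            · exact fun h => h.1
            · intro h
              refine ⟨h, fun h' => h2 ?_⟩
              rw [← h]
              exact Nat.mem_primeFactors.mpr ⟨Nat.prime_two, h', (addOrderOf_pos b).ne'⟩
          rw [h1]
          exact hpar K hK h2
  · intro b hb c hc hbc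
    have hb0 : b ≠ 0 := fun h => h0 (h ▸ hb)
    have hc0 : c ≠ 0 := fun h => h0 (h ▸ hc)
    have hlink : Link p b c := by
      refine ⟨hb0, hc0, ?_⟩
      by_cases h1 : 2 ∣ addOrderOf b
      · by_cases h2 : 2 ∣ addOrderOf c
        · exact Or.inr (Or.inl ⟨h1, h2⟩)
        · exfalso
          simp only [if_pos h1, if_neg h2] at hbc
          have h3 : 2 ∈ (addOrderOf c).primeFactors := by rw [← hbc]; simp
          exact h2 (Nat.mem_primeFactors.mp h3).2.1
      · by_cases h2 : 2 ∣ addOrderOf c
        · exfalso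
          simp only [if_neg h1, if_pos h2] at hbc
          have h3 : 2 ∈ (addOrderOf b).primeFactors := by rw [hbc]; simp
          exact h1 (Nat.mem_primeFactors.mp h3).2.1
        · simp only [if_neg h1, if_neg h2] at hbc
          exact Or.inl hbc
    constructor
    · exact fun h => h.trans _ _ _ (Relation.EqvGen.rel _ _ hlink)
    · exact fun h => h.trans _ _ _ (Relation.EqvGen.symm _ _ (Relation.EqvGen.rel _ _ hlink))

/-- **The Tate conjecture for pairwise quadratic residues.** -/
theorem qr_main {m n k : ℕ} (hp : p.Prime) (hn : 0 < n) (hk : k = 1 ∨ k = 2) (hkn : k * n = m)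
    (hn2 : ¬ 2 ∣ n) (hpm : p.Coprime m) (hf : Odd (orderOf (p : ZMod m))) (hQR : PQR n)
    {s : Multiset (ZMod m)} (hs : IsTate p m s) (hne : s ≠ 0) :
    ∃ N : ℕ, 0 < N ∧ p.Coprime N ∧ ∀ M : ℕ, N * m = M →
      H916T.Generated M (ZBase p M) (s.map (iota N : ZMod m → ZMod M)) := by
  have hk0 : 0 < k := by omega
  have hm : 0 < m := by rw [← hkn]; exact Nat.mul_pos hk0 hn
  have hz1 : NeZero m := ⟨hm.ne'⟩
  have hm4 : ¬ 4 ∣ m := by
    rintro ⟨x, hx⟩
    apply hn2
    rcases hk with rfl | rfl
    · exact ⟨2 * x, by rw [one_mul] at hkn; rw [hkn, hx]; ring⟩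
    · exact ⟨x, by rw [hx] at hkn; omega⟩
  have hrel : Rel0 p s := fun t => hs.W_sum hpm t
  refine parity_main hp (hu_all hp) (hb_all hp) hm hm4 hpm hs hne ?_
  intro a
  exact link_parity hs.1 hs.2.1
    (fun S hS h2 => parity_all hn hk hkn hn2 hpm hf hQR hrel S hS h2) a

end Pool.Agent.H916Q
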