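import Pool.Agent.H916Q.Transfer
import Pool.Agent.H916D.Rational

/-!
# Quadratic characters and the functions with prescribed parities
-/

set_option linter.unusedSectionVars false

namespace Pool.Agent.H916Q

open Finset

section one

variable {ℓ : ℕ} [Fact ℓ.Prime]

/-- the Legendre symbol on units -/
noncomputable def leg (u : (ZMod ℓ)ˣ) : ℤ := quadraticChar (ZMod ℓ) (u : ZMod ℓ)

lemma leg_mul (u v : (ZMod ℓ)ˣ) : leg (u * v) = leg u * leg v := by
  unfold leg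
  rw [Units.val_mul, map_mul]

lemma leg_or (u : (ZMod ℓ)ˣ) : leg u = 1 ∨ leg u = -1 := quadraticChar_dichotomy u.ne_zero

lemma leg_odd (u : (ZMod ℓ)ˣ) : ¬ 2 ∣ leg u := by
  rcases leg_or u with h | h <;> rw [h] <;> norm_num

lemma leg_sq {u : (ZMod ℓ)ˣ} (h : IsSquare (u : ZMod ℓ)) : leg u = 1 :=
  (quadraticChar_one_iff_isSquare u.ne_zero).mpr h

lemma leg_inv (u : (ZMod ℓ)ˣ) : leg u⁻¹ = leg u := by
  have h : leg u * leg u⁻¹ = 1 := by
    rw [← leg_mul, mul_inv_cancel]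
    exact leg_sq (by simp)
  rcases leg_or u with h1 | h1 <;> rcases leg_or u⁻¹ with h2 | h2 <;> rw [h1, h2] at h <;>
    norm_num at h <;> rw [h1, h2]

lemma leg_neg_one (h : ℓ % 4 = 1) : leg (-1 : (ZMod ℓ)ˣ) = 1 := by
  apply leg_sq
  rw [Units.val_neg, Units.val_one, ZMod.exists_sq_eq_neg_one_iff]
  omega

lemma leg_neg_one' (h : ℓ % 4 = 3) : leg (-1 : (ZMod ℓ)ˣ) = -1 := by
  unfold leg
  rw [quadraticChar_neg_one_iff_not_isSquare, Units.val_neg, Units.val_one,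
    ZMod.exists_sq_eq_neg_one_iff]
  simp [h]

lemma exists_leg (hℓ : ℓ ≠ 2) : ∃ g : (ZMod ℓ)ˣ, leg g = -1 :=
  quadraticChar_exists_neg_one' (by rwa [ZMod.ringChar_zmod_n])

lemma leg_sum (hℓ : ℓ ≠ 2) : ∑ u : (ZMod ℓ)ˣ, leg u = 0 := by
  obtain ⟨g, hg⟩ := exists_leg hℓ
  have h1 : ∑ u : (ZMod ℓ)ˣ, leg u = ∑ u : (ZMod ℓ)ˣ, leg (g * u) :=
    (Fintype.sum_equiv (Equiv.mulLeft g) _ _ fun u => rfl).symm
  simp only [leg_mul, hg] at h1
  rw [← mul_sum] at h1
  linarith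

/-- a half system -/
noncomputable def half (u : (ZMod ℓ)ˣ) : Bool := decide (2 * (u : ZMod ℓ).val < ℓ)

lemma half_neg (hℓ : ℓ ≠ 2) (u : (ZMod ℓ)ˣ) : half (-u) = !half u := by
  have hp : ℓ.Prime := Fact.out
  have h1 := ZMod.neg_val (u : ZMod ℓ)
  rw [if_neg u.ne_zero] at h1
  have h2 := ZMod.val_lt (u : ZMod ℓ)
  have h3 : (u : ZMod ℓ).val ≠ 0 := fun h => u.ne_zero ((ZMod.val_eq_zero _).mp h)
  obtain ⟨r, hr⟩ : ∃ r, ℓ = 2 * r + 1 := by
    have := hp.eq_two_or_odd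
    exact ⟨ℓ / 2, by omega⟩
  unfold half
  rw [Units.val_neg, h1]
  by_cases h : 2 * (u : ZMod ℓ).val < ℓ
  · have h' : ¬ 2 * (ℓ - (u : ZMod ℓ).val) < ℓ := by omega
    rw [decide_eq_true h, decide_eq_false h']; rfl
  · have h' : 2 * (ℓ - (u : ZMod ℓ).val) < ℓ := by omega
    rw [decide_eq_false h, decide_eq_true h']; rfl

/-- half of the non-squares -/
noncomputable def om (u : (ZMod ℓ)ˣ) : ℤ := if leg u = 1 then 0 else if half u then 1 else -1

lemma om_neg (hℓ : ℓ % 4 = 1) (u : (ZMod ℓ)ˣ) : om (-u) = - om u := by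
  have hℓ2 : ℓ ≠ 2 := by rintro rfl; norm_num at hℓ
  have h1 : leg (-u) = leg u := by
    rw [← neg_one_mul, leg_mul, leg_neg_one hℓ, one_mul]
  unfold om
  rw [h1, half_neg hℓ2]
  by_cases h : leg u = 1
  · simp [h]
  · simp only [if_neg h]
    cases half u <;> simp

lemma om_sub (t : (ZMod ℓ)ˣ) (ht : leg t = 1) (u : (ZMod ℓ)ˣ) : 2 ∣ om u - om (t * u) := by
  have h1 : leg (t * u) = leg u := by rw [leg_mul, ht, one_mul]
  unfold om
  rw [h1]
  by_cases h : leg u = 1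
  · simp [h]
  · simp only [if_neg h]
    cases half u <;> cases half (t * u) <;> norm_num

lemma om_sub' (t : (ZMod ℓ)ˣ) (ht : leg t = -1) (u : (ZMod ℓ)ˣ) : ¬ 2 ∣ om u - om (t * u) := by
  have h1 : leg (t * u) = - leg u := by rw [leg_mul, ht, neg_one_mul]
  unfold om
  rw [h1]
  rcases leg_or u with h | h
  · rw [h]
    cases half u <;> cases half (t * u) <;> norm_num
  · rw [h]
    cases half u <;> cases half (t * u) <;> norm_num

end one

/-- pairwise quadratic residues -/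
def PQR (m : ℕ) : Prop := ∀ ℓ ℓ' : ℕ, ℓ.Prime → ℓ'.Prime → ℓ ∣ m → ℓ' ∣ m → ℓ ≠ ℓ' →
  IsSquare ((ℓ : ℕ) : ZMod ℓ')

section

variable {m : ℕ}

lemma pf_ne_two (hm2 : ¬ 2 ∣ m) (i : PF m) : (i : ℕ) ≠ 2 := fun h =>
  hm2 (h ▸ Nat.dvd_of_mem_primeFactors i.2)

lemma leg_vec (hQR : PQR m) {i j : PF m} (hij : i ≠ j) : leg (vec m (j : ℕ) i) = 1 := by
  apply leg_sq
  have hip : (i : ℕ).Prime := Fact.out
  have hjp : (j : ℕ).Prime := Fact.out
  have h : ¬ (i : ℕ) ∣ (j : ℕ) := fun h =>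
    hij (Subtype.ext ((Nat.prime_dvd_prime_iff_eq hip hjp).mp h))
  rw [vec_val h]
  exact hQR j i hjp hip (Nat.dvd_of_mem_primeFactors j.2) (Nat.dvd_of_mem_primeFactors i.2)
    (fun h' => hij (Subtype.ext h'.symm))

lemma leg_tt (hQR : PQR m) {i j : PF m} (hij : i ≠ j) : leg (tt m j i) = 1 := by
  unfold tt
  rw [Pi.inv_apply, leg_inv, leg_vec hQR hij]

theorem exists_coords (hm2 : ¬ 2 ∣ m) (hQR : PQR m) (S : Finset (PF m)) (hS : S.Nonempty) :
    ∃ φ, Dist (sg m) (tt m) φ ∧ (∀ x, ¬ 2 ∣ φ S x) ∧ ∀ U, U ≠ S → ∀ x, 2 ∣ φ U x := by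
  classical
  -- choice of the special prime
  obtain ⟨i0, hi0, hrest⟩ : ∃ i0 ∈ S, ∀ i ∈ S.erase i0, (i : ℕ) % 4 = 1 := by
    have hodd : ∀ i : PF m, (i : ℕ) % 4 = 1 ∨ (i : ℕ) % 4 = 3 := by
      intro i
      have hip : (i : ℕ).Prime := Fact.out
      have h1 := pf_ne_two hm2 i
      have := hip.eq_two_or_odd
      omega
    by_cases h : ∃ i0 ∈ S, (i0 : ℕ) % 4 = 3
    · obtain ⟨i0, hi0, h3⟩ := h
      refine ⟨i0, hi0, fun i hi => ?_⟩
      rcases hodd i with h1 | h1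
      · exact h1
      · exfalso
        have hne : (i : ℕ) ≠ (i0 : ℕ) := fun h => (mem_erase.mp hi).1 (Subtype.ext h)
        have h4 := ZMod.exists_sq_eq_prime_iff_of_mod_four_eq_three h1 h3 hne
        have hip : (i : ℕ).Prime := Fact.out
        have hjp : (i0 : ℕ).Prime := Fact.out
        have h5 := hQR i0 i hjp hip (Nat.dvd_of_mem_primeFactors i0.2)
          (Nat.dvd_of_mem_primeFactors i.2) hne.symm
        have h6 := hQR i i0 hip hjp (Nat.dvd_of_mem_primeFactors i.2)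
          (Nat.dvd_of_mem_primeFactors i0.2) hne
        exact h4.mp h5 h6
    · push Not at h
      obtain ⟨i0, hi0⟩ := hS
      exact ⟨i0, hi0, fun i hi => (hodd i).resolve_right (h i (mem_of_mem_erase hi))⟩
  have hi02 := pf_ne_two hm2 i0
  have hcore : ∃ κ, Core i0 (sg m) (tt m) κ := by
    by_cases h3 : (i0 : ℕ) % 4 = 3
    · refine core_three (ι := PF m) (G := GG m) (i0 := i0) (σ := sg m) (tt m) leg ?_ ?_ leg_odd
        (leg_sum hi02)
      · intro u
        rw [leg_mul]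
        simp only [sg]
        rw [leg_neg_one' h3, neg_one_mul]
      · intro j hj u
        rw [leg_mul, leg_tt hQR hj.symm, one_mul]
    · have h1 : (i0 : ℕ) % 4 = 1 := by
        have hip : (i0 : ℕ).Prime := Fact.out
        have := hip.eq_two_or_odd
        omega
      obtain ⟨g, hg⟩ := exists_leg hi02
      refine core_one (ι := PF m) (G := GG m) (i0 := i0) (σ := sg m) (b := half) ?_ ?_ (tt m) om
        ?_ ?_ g ?_
      · intro i; simp [sg]
      · intro u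
        simp only [sg]
        rw [neg_one_mul, half_neg hi02]
      · intro u
        simp only [sg]
        rw [neg_one_mul, om_neg h1]
      · intro j hj u
        exact om_sub _ (leg_tt hQR hj.symm) u
      · intro u
        exact om_sub' _ hg u
  obtain ⟨κ, hκ⟩ := hcore
  refine exists_dist hκ hi0 (fun i => leg) ?_ ?_ ?_ ?_
  · intro i hi u
    rw [leg_mul]
    simp only [sg]
    rw [leg_neg_one (hrest i hi), one_mul]
  · intro i hi j hj u
    have hij : i ≠ j := fun h => hj (h ▸ mem_of_mem_erase hi)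
    rw [leg_mul, leg_tt hQR hij, one_mul]
  · intro i _
    exact leg_sum (pf_ne_two hm2 i)
  · intro i _ u
    exact leg_odd u

end

end Pool.Agent.H916Q
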