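import Pool.Agent.H916Q.Family

/-!
# Families with prescribed parities
-/

set_option linter.unusedSectionVars false

namespace Pool.Agent.H916Q

open Finset

section

variable {ι : Type} [DecidableEq ι] {G : ι → Type} [∀ i, CommGroup (G i)]
  [∀ i, Fintype (G i)] [∀ i, DecidableEq (G i)]

/-- a family supported near `i0` -/
structure Core (i0 : ι) (σ : ∀ i, G i) (t : ι → ∀ i, G i) (κ : Finset ι → (∀ i, G i) → ℤ) :
    Prop where
  ind : ∀ T, i0 ∉ T → ∀ k, k ∉ T → k ≠ i0 → Ind k (κ T)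
  odd : ∀ T, i0 ∉ T → ∀ x, κ T (σ * x) = - κ T x
  even : ∀ T, i0 ∉ T → T ≠ ∅ → ∀ x, 2 ∣ κ T x
  rel : ∀ T, i0 ∉ T → ∀ j ∈ T, NN j (κ T) = DD (t j) (κ (T.erase j))
  zero : ∀ T, i0 ∉ T → NN i0 (κ T) = fun _ => 0
  one : ∀ x, ¬ 2 ∣ κ ∅ x

/-- an odd distribution in coordinates -/
structure Dist (σ : ∀ i, G i) (t : ι → ∀ i, G i) (φ : Finset ι → (∀ i, G i) → ℤ) : Prop where
  ind : ∀ U, ∀ k, k ∉ U → Ind k (φ U)
  odd : ∀ U, ∀ x, φ U (σ * x) = - φ U x
  rel : ∀ U, ∀ j ∈ U, NN j (φ U) = DD (t j) (φ (U.erase j))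
  zero : ∀ x, φ ∅ x = 0

lemma DD_of_Ind {j : ι} {f : (∀ i, G i) → ℤ} (h : Ind j f) (y : G j) :
    DD (Pi.mulSingle j y) f = fun _ => 0 := by
  funext x
  unfold DD
  rw [h, sub_self]

variable [Fintype ι]

theorem core_one {i0 : ι} {σ : ∀ i, G i} {b : G i0 → Bool} (hσ : ∀ i, σ i * σ i = 1)
    (hb : ∀ u, b (σ i0 * u) = !b u)
    (t : ι → ∀ i, G i) (ω0 : G i0 → ℤ)
    (h1 : ∀ u, ω0 (σ i0 * u) = - ω0 u) (h2 : ∀ j, j ≠ i0 → ∀ u, 2 ∣ ω0 u - ω0 (t j i0 * u))
    (g : G i0) (h3 : ∀ u, ¬ 2 ∣ ω0 u - ω0 (g * u)) :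
    ∃ κ, Core i0 σ t κ := by
  obtain ⟨ω, hω0, hω⟩ := exists_family (i0 := i0) hσ hb t (fun x => ω0 (x i0))
    (by
      intro k hk y x
      show ω0 ((Pi.mulSingle k y * x) i0) = _
      rw [Pi.mul_apply, Pi.mulSingle_eq_of_ne hk.symm, one_mul])
    (by
      intro x
      show ω0 ((σ * x) i0) = _
      rw [Pi.mul_apply, h1])
    (by
      intro j hj x
      show 2 ∣ ω0 (x i0) - ω0 ((t j * x) i0)
      rw [Pi.mul_apply]
      exact h2 j hj _) (Fintype.card ι)
  have hF : ∀ T : Finset ι, i0 ∉ T → Fam i0 σ t ω T := fun T hT => hω T hT (card_le_univ T)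
  refine ⟨fun T => DD (Pi.mulSingle i0 g) (ω T), ?_, ?_, ?_, ?_, ?_, ?_⟩
  · intro T hT k hk hk0
    exact ((hF T hT).ind k hk hk0).DD _
  · intro T hT x
    unfold DD
    rw [mul_left_comm, (hF T hT).odd, (hF T hT).odd]; ring
  · intro T hT hne x
    exact dvd_sub ((hF T hT).even hne _) ((hF T hT).even hne _)
  · intro T hT j hj
    rw [NN_DD, (hF T hT).rel j hj, DD_comm]
  · intro T _
    rw [NN_DD, DD_of_Ind (Ind_NN_self i0 _)]
  · intro x
    show ¬ 2 ∣ DD (Pi.mulSingle i0 g) (ω ∅) x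
    rw [hω0]
    show ¬ 2 ∣ ω0 (x i0) - ω0 ((Pi.mulSingle i0 g * x) i0)
    rw [Pi.mul_apply, Pi.mulSingle_eq_same]
    exact h3 _

theorem core_three {i0 : ι} {σ : ∀ i, G i} (t : ι → ∀ i, G i) (ω0 : G i0 → ℤ)
    (h1 : ∀ u, ω0 (σ i0 * u) = - ω0 u) (h2 : ∀ j, j ≠ i0 → ∀ u, ω0 (t j i0 * u) = ω0 u)
    (h3 : ∀ u, ¬ 2 ∣ ω0 u) (h4 : ∑ u, ω0 u = 0) :
    ∃ κ, Core i0 σ t κ := by
  have hI : ∀ k, k ≠ i0 → Ind k (fun x : ∀ i, G i => ω0 (x i0)) := by
    intro k hk y x
    show ω0 ((Pi.mulSingle k y * x) i0) = _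
    rw [Pi.mul_apply, Pi.mulSingle_eq_of_ne hk.symm, one_mul]
  refine ⟨fun T => if T = ∅ then fun x => ω0 (x i0) else fun _ => 0, ?_, ?_, ?_, ?_, ?_, ?_⟩
  · intro T _ k _ hk0
    by_cases h : T = ∅
    · simp only [if_pos h]; exact hI k hk0
    · simp only [if_neg h]; exact fun _ _ => rfl
  · intro T _ x
    by_cases h : T = ∅
    · simp only [if_pos h]
      rw [Pi.mul_apply, h1]
    · simp only [if_neg h, neg_zero]
  · intro T _ hne x
    simp only [if_neg hne]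
    exact dvd_zero 2
  · intro T hT j hj
    have h : T ≠ ∅ := fun h => by rw [h] at hj; simp at hj
    have hj0 : j ≠ i0 := fun h => hT (h ▸ hj)
    simp only [if_neg h]
    funext x
    unfold NN DD
    by_cases h' : T.erase j = ∅
    · simp only [if_pos h']
      rw [Pi.mul_apply, h2 j hj0]
      simp
    · simp only [if_neg h']
      simp
  · intro T _
    by_cases h : T = ∅
    · simp only [if_pos h]
      funext x
      unfold NN
      have h5 : ∀ y : G i0, ω0 ((Pi.mulSingle i0 y * x) i0) = ω0 (y * x i0) := by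
        intro y
        rw [Pi.mul_apply, Pi.mulSingle_eq_same]
      rw [sum_congr rfl fun y _ => h5 y, ← h4]
      exact Fintype.sum_equiv (Equiv.mulRight (x i0)) _ _ fun y => rfl
    · simp only [if_neg h]
      funext x
      unfold NN
      simp
  · intro x
    simp only [if_true]
    exact h3 _

/-- the product of the even characters -/
def QQ (χ : ∀ i, G i → ℤ) (R : Finset ι) (x : ∀ i, G i) : ℤ := ∏ i ∈ R, χ i (x i)

theorem exists_dist {i0 : ι} {σ : ∀ i, G i} {t : ι → ∀ i, G i} {κ : Finset ι → (∀ i, G i) → ℤ}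
    (hκ : Core i0 σ t κ) {S : Finset ι} (hS : i0 ∈ S) (χ : ∀ i, G i → ℤ)
    (c1 : ∀ i ∈ S.erase i0, ∀ u, χ i (σ i * u) = χ i u)
    (c2 : ∀ i ∈ S.erase i0, ∀ j, j ∉ S → ∀ u, χ i (t j i * u) = χ i u)
    (c3 : ∀ i ∈ S.erase i0, ∑ u, χ i u = 0) (c4 : ∀ i ∈ S.erase i0, ∀ u, ¬ 2 ∣ χ i u) :
    ∃ φ, Dist σ t φ ∧ (∀ x, ¬ 2 ∣ φ S x) ∧ ∀ U, U ≠ S → ∀ x, 2 ∣ φ U x := by
  classical
  set R := S.erase i0 with hR
  set Q : (∀ i, G i) → ℤ := QQ χ R with hQ
  have hQI : ∀ k, k ∉ R → Ind k Q := by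
    intro k hk y x
    simp only [hQ, QQ]
    refine prod_congr rfl fun i hi => ?_
    have : i ≠ k := fun h => hk (h ▸ hi)
    rw [Pi.mul_apply, Pi.mulSingle_eq_of_ne this, one_mul]
  have hQσ : ∀ x, Q (σ * x) = Q x := by
    intro x
    simp only [hQ, QQ]
    exact prod_congr rfl fun i hi => by rw [Pi.mul_apply, c1 i hi]
  have hQt : ∀ j, j ∉ S → ∀ x, Q (t j * x) = Q x := by
    intro j hj x
    simp only [hQ, QQ]
    exact prod_congr rfl fun i hi => by rw [Pi.mul_apply, c2 i hi j hj]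
  have hQodd : ∀ x, ¬ 2 ∣ Q x := by
    intro x h
    simp only [hQ, QQ] at h
    obtain ⟨i, hi, h'⟩ := (Int.prime_two.dvd_finsetProd_iff _).mp h
    exact c4 i hi _ h'
  have hQN : ∀ j ∈ R, ∀ h : (∀ i, G i) → ℤ, Ind j h → NN j (fun x => Q x * h x) = fun _ => 0 := by
    intro j hj h hh
    funext x
    unfold NN
    have h5 : ∀ y : G j, Q (Pi.mulSingle j y * x) * h (Pi.mulSingle j y * x) =
        χ j (y * x j) * ((∏ i ∈ R.erase j, χ i (x i)) * h x) := by
      intro y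
      rw [hh]
      simp only [hQ, QQ]
      rw [← mul_prod_erase R _ hj, Pi.mul_apply, Pi.mulSingle_eq_same, mul_assoc]
      congr 2
      refine prod_congr rfl fun i hi => ?_
      rw [Pi.mul_apply, Pi.mulSingle_eq_of_ne (ne_of_mem_erase hi), one_mul]
    rw [sum_congr rfl fun y _ => h5 y, ← sum_mul]
    have h6 : ∑ y, χ j (y * x j) = 0 := by
      rw [← c3 j hj]
      exact Fintype.sum_equiv (Equiv.mulRight (x j)) _ _ fun y => rfl
    rw [h6, zero_mul]
  have hQmul : ∀ j, j ∉ R → ∀ h : (∀ i, G i) → ℤ,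
      NN j (fun x => Q x * h x) = fun x => Q x * NN j h x := by
    intro j hj h
    funext x
    unfold NN
    rw [mul_sum]
    refine sum_congr rfl fun y _ => ?_
    show Q _ * h _ = _
    rw [hQI j hj]
  have h0 : ∀ U : Finset ι, i0 ∉ U \ S := fun U h => (mem_sdiff.mp h).2 hS
  refine ⟨fun U => if S ⊆ U then fun x => Q x * κ (U \ S) x else fun _ => 0,
    ⟨?_, ?_, ?_, ?_⟩, ?_, ?_⟩
  · intro U k hk
    by_cases h : S ⊆ U
    · simp only [if_pos h]
      have hkS : k ∉ S := fun h' => hk (h h')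
      intro y x
      show Q _ * κ _ _ = _
      rw [hQI k (fun h' => hkS (mem_of_mem_erase h')),
        hκ.ind _ (h0 U) k (fun h' => hk (mem_sdiff.mp h').1) (fun h' => hkS (h' ▸ hS))]
    · simp only [if_neg h]; exact fun _ _ => rfl
  · intro U x
    by_cases h : S ⊆ U
    · simp only [if_pos h]
      rw [hQσ, hκ.odd _ (h0 U)]; ring
    · simp only [if_neg h, neg_zero]
  · intro U j hj
    by_cases h : S ⊆ U
    · simp only [if_pos h]
      by_cases hjS : j ∈ S
      · have h' : ¬ S ⊆ U.erase j := fun h' => notMem_erase j U (h' hjS)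
        simp only [if_neg h']
        have h7 : DD (t j) (fun _ : ∀ i, G i => (0 : ℤ)) = fun _ => 0 := by
          funext x; simp [DD]
        rw [h7]
        by_cases hj0 : j = i0
        · subst hj0
          rw [hQmul j (notMem_erase j S), hκ.zero _ (h0 U)]
          simp
        · exact hQN j (mem_erase.mpr ⟨hj0, hjS⟩) _
            (hκ.ind _ (h0 U) j (fun h' => (mem_sdiff.mp h').2 hjS) hj0)
      · have h' : S ⊆ U.erase j := fun x hx => mem_erase.mpr ⟨fun h'' => hjS (h'' ▸ hx), h hx⟩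
        simp only [if_pos h']
        rw [hQmul j (fun h'' => hjS (mem_of_mem_erase h'')),
          hκ.rel _ (h0 U) j (mem_sdiff.mpr ⟨hj, hjS⟩)]
        have h8 : (U \ S).erase j = U.erase j \ S := (erase_sdiff_comm U S j).symm
        rw [h8]
        funext x
        show Q x * (κ _ x - κ _ (t j * x)) = Q x * κ _ x - Q (t j * x) * κ _ (t j * x)
        rw [hQt j hjS]; ring
    · simp only [if_neg h]
      have h' : ¬ S ⊆ U.erase j := fun h' => h (h'.trans (erase_subset _ _))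
      simp only [if_neg h']
      funext x
      simp [NN, DD]
  · intro x
    have h : ¬ S ⊆ ∅ := fun h => by simpa using h hS
    simp only [if_neg h]
  · intro x
    simp only [if_pos (Subset.refl S)]
    intro h'
    rcases Int.prime_two.dvd_or_dvd h' with h' | h'
    · exact hQodd _ h'
    · rw [sdiff_self] at h'
      exact hκ.one _ h'
  · intro U hU x
    by_cases h : S ⊆ U
    · simp only [if_pos h]
      refine Dvd.dvd.mul_left (hκ.even _ (h0 U) ?_ _) _
      intro h'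
      exact hU (Subset.antisymm (sdiff_eq_empty_iff_subset.mp h') h)
    · simp only [if_neg h]
      exact dvd_zero 2

end

end Pool.Agent.H916Q
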