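import Mathlib

/-!
# Extension of odd distributions: the combinatorial core

Functions on a finite product of finite commutative groups, sums over one coordinate, translations.
-/

set_option linter.unusedSectionVars false

namespace Pool.Agent.H916Q

open Finset

section

variable {ι : Type} [DecidableEq ι] {G : ι → Type} [∀ i, CommGroup (G i)]
  [∀ i, Fintype (G i)] [∀ i, DecidableEq (G i)]

/-- independence of a coordinate -/
def Ind (j : ι) (f : (∀ i, G i) → ℤ) : Prop := ∀ (y : G j) (x : ∀ i, G i),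
  f (Pi.mulSingle j y * x) = f x

/-- sum over a coordinate -/
def NN (j : ι) (f : (∀ i, G i) → ℤ) (x : ∀ i, G i) : ℤ := ∑ y : G j, f (Pi.mulSingle j y * x)

/-- difference under a translation -/
def DD (t : ∀ i, G i) (f : (∀ i, G i) → ℤ) (x : ∀ i, G i) : ℤ := f x - f (t * x)

lemma NN_trans (j : ι) (t : ∀ i, G i) (f : (∀ i, G i) → ℤ) (x : ∀ i, G i) :
    NN j (fun x => f (t * x)) x = NN j f (t * x) := by
  unfold NN
  refine sum_congr rfl fun y _ => ?_
  rw [mul_left_comm]

lemma NN_DD (j : ι) (t : ∀ i, G i) (f : (∀ i, G i) → ℤ) : NN j (DD t f) = DD t (NN j f) := by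
  funext x
  unfold DD
  rw [← NN_trans]
  unfold NN
  rw [← sum_sub_distrib]

lemma DD_comm (s t : ∀ i, G i) (f : (∀ i, G i) → ℤ) : DD s (DD t f) = DD t (DD s f) := by
  funext x
  unfold DD
  rw [mul_left_comm s t x]
  ring

lemma NN_comm (i j : ι) (f : (∀ i, G i) → ℤ) : NN i (NN j f) = NN j (NN i f) := by
  funext x
  unfold NN
  rw [sum_comm]
  refine sum_congr rfl fun y _ => sum_congr rfl fun z _ => ?_
  rw [mul_left_comm]

lemma NN_sub (j : ι) (f g : (∀ i, G i) → ℤ) :
    NN j (fun x => f x - g x) = fun x => NN j f x - NN j g x := by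
  funext x
  unfold NN
  rw [← sum_sub_distrib]

lemma NN_add (j : ι) (f g : (∀ i, G i) → ℤ) :
    NN j (fun x => f x + g x) = fun x => NN j f x + NN j g x := by
  funext x
  unfold NN
  rw [← sum_add_distrib]

lemma Ind_NN_self (j : ι) (f : (∀ i, G i) → ℤ) : Ind j (NN j f) := by
  intro y x
  unfold NN
  refine Fintype.sum_equiv (Equiv.mulRight y) _ _ fun z => ?_
  rw [Equiv.coe_mulRight, Pi.mulSingle_mul, mul_assoc]

lemma Ind.NN {k : ι} {f : (∀ i, G i) → ℤ} (h : Ind k f) (j : ι) : Ind k (NN j f) := by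
  intro y x
  rw [← NN_trans]
  unfold H916Q.NN
  refine sum_congr rfl fun z _ => ?_
  exact h y _

lemma Ind.DD {k : ι} {f : (∀ i, G i) → ℤ} (h : Ind k f) (t : ∀ i, G i) : Ind k (DD t f) := by
  intro y x
  unfold H916Q.DD
  rw [mul_left_comm, h, h]

lemma Ind.sub {k : ι} {f g : (∀ i, G i) → ℤ} (h : Ind k f) (h' : Ind k g) :
    Ind k (fun x => f x - g x) := fun y x => by
  show f _ - g _ = _
  rw [h, h']

lemma Ind.add {k : ι} {f g : (∀ i, G i) → ℤ} (h : Ind k f) (h' : Ind k g) :
    Ind k (fun x => f x + g x) := fun y x => by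
  show f _ + g _ = _
  rw [h, h']

variable (i0 : ι) (σ : ∀ i, G i) (b : G i0 → Bool)

/-- the indicator of the base point -/
def ee (j : ι) (x : ∀ i, G i) : ℤ := if x j = (if b (x i0) then 1 else σ j) then 1 else 0

variable {i0 σ b}

lemma ee_single {j k : ι} (hk : k ≠ i0) (hkj : k ≠ j) (y : G k) (x : ∀ i, G i) :
    ee i0 σ b j (Pi.mulSingle k y * x) = ee i0 σ b j x := by
  unfold ee
  have h1 : (Pi.mulSingle k y * x) i0 = x i0 := by
    rw [Pi.mul_apply, Pi.mulSingle_eq_of_ne hk.symm, one_mul]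
  have h2 : (Pi.mulSingle k y * x) j = x j := by
    rw [Pi.mul_apply, Pi.mulSingle_eq_of_ne hkj.symm, one_mul]
  rw [h1, h2]

lemma ee_neg (hσ : ∀ i, σ i * σ i = 1) (hb : ∀ u, b (σ i0 * u) = !b u) (j : ι) (x : ∀ i, G i) :
    ee i0 σ b j (σ * x) = ee i0 σ b j x := by
  unfold ee
  rw [Pi.mul_apply, Pi.mul_apply, hb]
  have h2 : ∀ z : G j, σ j * z = 1 ↔ z = σ j := by
    intro z
    constructor
    · intro h
      calc z = σ j * (σ j * z) := by rw [← mul_assoc, hσ, one_mul]
        _ = σ j := by rw [h, mul_one]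
    · rintro rfl; exact hσ j
  have h3 : ∀ z : G j, σ j * z = σ j ↔ z = 1 := by
    intro z
    exact mul_eq_left
  cases hbx : b (x i0)
  · simp only [Bool.not_false, if_true, Bool.false_eq_true, if_false]
    simp only [h2]
  · simp only [Bool.not_true, if_true, Bool.false_eq_true, if_false]
    simp only [h3]

lemma NN_ee_self {j : ι} (hj : j ≠ i0) {h : (∀ i, G i) → ℤ} (hI : Ind j h) :
    NN j (fun x => ee i0 σ b j x * h x) = h := by
  funext x
  unfold NN
  have h1 : ∀ y : G j, ee i0 σ b j (Pi.mulSingle j y * x) * h (Pi.mulSingle j y * x) =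
      if y = (if b (x i0) then 1 else σ j) * (x j)⁻¹ then h x else 0 := by
    intro y
    rw [hI]
    unfold ee
    have h1 : (Pi.mulSingle j y * x) i0 = x i0 := by
      rw [Pi.mul_apply, Pi.mulSingle_eq_of_ne hj.symm, one_mul]
    have h2 : (Pi.mulSingle j y * x) j = y * x j := by
      rw [Pi.mul_apply, Pi.mulSingle_eq_same]
    rw [h1, h2]
    by_cases hc : y * x j = (if b (x i0) then 1 else σ j)
    · rw [if_pos hc, if_pos (by rw [← hc, mul_assoc, mul_inv_cancel, mul_one]), one_mul]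
    · rw [if_neg hc, if_neg, zero_mul]
      intro h3
      apply hc
      rw [h3, mul_assoc, inv_mul_cancel, mul_one]
  rw [sum_congr rfl fun y _ => h1 y, Finset.sum_ite_eq' univ]
  simp

lemma NN_ee_of_ne {i j : ι} (hi : i ≠ i0) (hij : i ≠ j) (h : (∀ i, G i) → ℤ) :
    NN i (fun x => ee i0 σ b j x * h x) = fun x => ee i0 σ b j x * NN i h x := by
  funext x
  unfold NN
  rw [mul_sum]
  refine sum_congr rfl fun y _ => ?_
  show ee i0 σ b j _ * h _ = _
  rw [ee_single hi hij]

/-- the functions we work with -/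
structure Good (i0 : ι) (σ : ∀ i, G i) (K : Finset ι) (f : (∀ i, G i) → ℤ) : Prop where
  ind : ∀ k, k ∉ K → k ≠ i0 → Ind k f
  odd : ∀ x, f (σ * x) = - f x
  even : ∀ x, 2 ∣ f x

lemma Good.zero (K : Finset ι) : Good i0 σ K (fun _ => 0) :=
  ⟨fun _ _ _ _ _ => rfl, fun _ => by simp, fun _ => dvd_zero 2⟩

lemma Good.sub {K : Finset ι} {f g : (∀ i, G i) → ℤ} (hf : Good i0 σ K f) (hg : Good i0 σ K g) :
    Good i0 σ K (fun x => f x - g x) :=
  ⟨fun k h1 h2 => (hf.ind k h1 h2).sub (hg.ind k h1 h2),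
    fun x => by show f _ - g _ = _; rw [hf.odd, hg.odd]; ring,
    fun x => dvd_sub (hf.even x) (hg.even x)⟩

lemma Good.add {K : Finset ι} {f g : (∀ i, G i) → ℤ} (hf : Good i0 σ K f) (hg : Good i0 σ K g) :
    Good i0 σ K (fun x => f x + g x) :=
  ⟨fun k h1 h2 => (hf.ind k h1 h2).add (hg.ind k h1 h2),
    fun x => by show f _ + g _ = _; rw [hf.odd, hg.odd]; ring,
    fun x => dvd_add (hf.even x) (hg.even x)⟩

lemma Good.mul_ee {K : Finset ι} {f : (∀ i, G i) → ℤ} (hσ : ∀ i, σ i * σ i = 1)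
    (hb : ∀ u, b (σ i0 * u) = !b u) (hf : Good i0 σ K f) {j : ι} (hj : j ∈ K) :
    Good i0 σ K (fun x => ee i0 σ b j x * f x) :=
  ⟨fun k h1 h2 y x => by
      show ee i0 σ b j _ * f _ = _
      rw [ee_single h2 (fun h => h1 (h ▸ hj)), hf.ind k h1 h2],
    fun x => by show ee i0 σ b j _ * f _ = _; rw [ee_neg hσ hb, hf.odd]; ring,
    fun x => Dvd.dvd.mul_left (hf.even x) _⟩

lemma Good.NN {K : Finset ι} {f : (∀ i, G i) → ℤ} (hf : Good i0 σ K f) (j : ι) :
    Good i0 σ K (NN j f) :=
  ⟨fun k h1 h2 => (hf.ind k h1 h2).NN j,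
    fun x => by
      rw [← NN_trans]
      unfold H916Q.NN
      rw [← sum_neg_distrib]
      exact sum_congr rfl fun y _ => hf.odd _,
    fun x => Finset.dvd_sum fun y _ => hf.even _⟩

lemma Good.DD {K : Finset ι} {f : (∀ i, G i) → ℤ} (hf : Good i0 σ K f) (t : ∀ i, G i) :
    Good i0 σ K (DD t f) :=
  ⟨fun k h1 h2 => (hf.ind k h1 h2).DD t,
    fun x => by
      unfold H916Q.DD
      rw [mul_left_comm, hf.odd, hf.odd]; ring,
    fun x => dvd_sub (hf.even _) (hf.even _)⟩

lemma Good.mono {K K' : Finset ι} (h : K ⊆ K') {f : (∀ i, G i) → ℤ} (hf : Good i0 σ K f) :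
    Good i0 σ K' f :=
  ⟨fun k h1 h2 => hf.ind k (fun h' => h1 (h h')) h2, hf.odd, hf.even⟩

/-- prescribed sums over the coordinates -/
lemma marg (hσ : ∀ i, σ i * σ i = 1) (hb : ∀ u, b (σ i0 * u) = !b u) (K : Finset ι)
    (hK : i0 ∉ K) (r : ι → (∀ i, G i) → ℤ) (hr : ∀ j ∈ K, Good i0 σ K (r j) ∧ Ind j (r j))
    (hc : ∀ i ∈ K, ∀ j ∈ K, NN i (r j) = NN j (r i)) :
    ∀ T : Finset ι, T ⊆ K → ∃ f, Good i0 σ K f ∧ ∀ j ∈ T, NN j f = r j := by
  intro T
  induction T using Finset.induction_on with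
  | empty => intro _; exact ⟨fun _ => 0, Good.zero K, fun j hj => by simp at hj⟩
  | insert a T haT ih =>
    intro hTK
    have haK : a ∈ K := hTK (mem_insert_self _ _)
    have hai : a ≠ i0 := fun h => hK (h ▸ haK)
    obtain ⟨f, hf, hfr⟩ := ih (fun x hx => hTK (mem_insert_of_mem hx))
    have h1 : Good i0 σ K (fun x => r a x - NN a f x) := (hr a haK).1.sub (hf.NN a)
    have h2 : Ind a (fun x => r a x - NN a f x) := (hr a haK).2.sub (Ind_NN_self a f)
    refine ⟨fun x => f x + ee i0 σ b a x * (r a x - NN a f x),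
      hf.add (h1.mul_ee hσ hb haK), ?_⟩
    intro j hj
    rw [NN_add]
    rcases mem_insert.mp hj with rfl | hjT
    · rw [NN_ee_self hai h2]
      funext x
      ring
    · have hjK : j ∈ K := hTK hj
      have hji : j ≠ i0 := fun h => hK (h ▸ hjK)
      have hja : j ≠ a := fun h => haT (h ▸ hjT)
      rw [NN_ee_of_ne hji hja, NN_sub, NN_comm j a, hfr j hjT, hc j hjK a haK]
      funext x
      ring

/-- the properties of the family -/
structure Fam (i0 : ι) (σ : ∀ i, G i) (t : ι → ∀ i, G i) (ω : Finset ι → (∀ i, G i) → ℤ)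
    (T : Finset ι) : Prop where
  ind : ∀ k, k ∉ T → k ≠ i0 → Ind k (ω T)
  odd : ∀ x, ω T (σ * x) = - ω T x
  even : T ≠ ∅ → ∀ x, 2 ∣ ω T x
  rel : ∀ j ∈ T, NN j (ω T) = DD (t j) (ω (T.erase j))

theorem exists_family (hσ : ∀ i, σ i * σ i = 1) (hb : ∀ u, b (σ i0 * u) = !b u)
    (t : ι → ∀ i, G i) (ω0 : (∀ i, G i) → ℤ) (h0 : ∀ k, k ≠ i0 → Ind k ω0)
    (h1 : ∀ x, ω0 (σ * x) = - ω0 x) (h2 : ∀ j, j ≠ i0 → ∀ x, 2 ∣ DD (t j) ω0 x) :
    ∀ n : ℕ, ∃ ω : Finset ι → (∀ i, G i) → ℤ, ω ∅ = ω0 ∧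
      ∀ T : Finset ι, i0 ∉ T → T.card ≤ n → Fam i0 σ t ω T := by
  intro n
  induction n with
  | zero =>
    refine ⟨fun _ => ω0, rfl, fun T hT hc => ?_⟩
    have hT0 : T = ∅ := Finset.card_eq_zero.mp (by omega)
    subst hT0
    exact ⟨fun k _ hk => h0 k hk, h1, fun h => absurd rfl h, fun j hj => by simp at hj⟩
  | succ n ih =>
    obtain ⟨ω, hω0, hω⟩ := ih
    -- the new functions
    have key : ∀ T : Finset ι, i0 ∉ T → T.card = n + 1 →
        ∃ f, Good i0 σ T f ∧ ∀ j ∈ T, NN j f = DD (t j) (ω (T.erase j)) := by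
      intro T hT hc
      have herase : ∀ j ∈ T, Fam i0 σ t ω (T.erase j) := by
        intro j hj
        refine hω _ (fun h => hT (mem_of_mem_erase h)) ?_
        rw [card_erase_of_mem hj, hc]; omega
      refine marg hσ hb T hT (fun j => DD (t j) (ω (T.erase j))) ?_ ?_ T (Subset.refl _)
      · intro j hj
        have hF := herase j hj
        refine ⟨⟨?_, ?_, ?_⟩, ?_⟩
        · intro k hk hk0
          exact (hF.ind k (fun h => hk (mem_of_mem_erase h)) hk0).DD _
        · intro x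
          unfold DD
          rw [mul_left_comm, hF.odd, hF.odd]; ring
        · intro x
          by_cases he : T.erase j = ∅
          · show 2 ∣ DD (t j) (ω (T.erase j)) x
            rw [he, hω0]
            exact h2 j (fun h => hT (h ▸ hj)) x
          · exact dvd_sub (hF.even he _) (hF.even he _)
        · exact (hF.ind j (notMem_erase j T) (fun h => hT (h ▸ hj))).DD _
      · intro i hi j hj
        by_cases hij : i = j
        · subst hij; rfl
        · show NN i (DD (t j) (ω (T.erase j))) = NN j (DD (t i) (ω (T.erase i)))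
          rw [NN_DD, NN_DD, (herase j hj).rel i (mem_erase.mpr ⟨hij, hi⟩),
            (herase i hi).rel j (mem_erase.mpr ⟨Ne.symm hij, hj⟩), erase_right_comm, DD_comm]
    classical
    choose! F hF hFr using key
    refine ⟨fun T => if T.card ≤ n then ω T else F T, ?_, ?_⟩
    · simp [hω0]
    · intro T hT hc
      by_cases hn : T.card ≤ n
      · have hFm := hω T hT hn
        refine ⟨?_, ?_, ?_, ?_⟩
        · simp only [if_pos hn]; exact hFm.ind
        · simp only [if_pos hn]; exact hFm.odd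
        · simp only [if_pos hn]; exact hFm.even
        · intro j hj
          have h3 : (T.erase j).card ≤ n := (card_le_card (erase_subset j T)).trans hn
          simp only [if_pos hn, if_pos h3]
          exact hFm.rel j hj
      · have hc' : T.card = n + 1 := by omega
        refine ⟨?_, ?_, ?_, ?_⟩
        · simp only [if_neg hn]; exact fun k h1 h2 => (hF T hT hc').ind k h1 h2
        · simp only [if_neg hn]; exact (hF T hT hc').odd
        · simp only [if_neg hn]; exact fun _ => (hF T hT hc').even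
        · intro j hj
          have h3 : (T.erase j).card ≤ n := by
            rw [card_erase_of_mem hj]; omega
          simp only [if_neg hn, if_pos h3]
          exact hFr T hT hc' j hj

end

end Pool.Agent.H916Q
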