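import Pool.Agent.H916Q.Chars
import Pool.Agent.H916Z.Final
import Pool.Agent.H916Z.CharTwo

/-!
# All parities vanish
-/

set_option linter.unusedSectionVars false

namespace Pool.Agent.H916Q

open Finset Pool.Agent.H916R2 Pool.Agent.H916T Pool.Agent.H916U Pool.Agent.H916Z

section od

variable {m : ℕ} [NeZero m]

lemma OD.unit {Q : Type*} [AddCommGroup Q] {c : ZMod m → Q} (hc : OD c) (hm2 : ¬ 2 ∣ m)
    (t : (ZMod m)ˣ) : OD (fun a => c ((t : ZMod m) * a)) where
  neg := fun a => by rw [mul_neg, hc.neg]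
  zero := by rw [mul_zero, hc.zero]
  odd := fun q d hq hq2 hqd a => by
    rw [coset_sum_unit c hqd, hc.odd q d hq hq2 hqd]
    congr 1
    ring
  two := fun d hd => absurd ⟨d, hd.symm⟩ hm2

lemma OD.sum {Q : Type*} [AddCommGroup Q] {J : Finset ℕ} {c : ℕ → ZMod m → Q}
    (hc : ∀ j ∈ J, OD (c j)) : OD (fun a => ∑ j ∈ J, c j a) where
  neg := fun a => by
    rw [← sum_neg_distrib]
    exact sum_congr rfl fun j hj => (hc j hj).neg a
  zero := sum_eq_zero fun j hj => (hc j hj).zero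
  odd := fun q d hq hq2 hqd a => by
    rw [sum_comm]
    exact sum_congr rfl fun j hj => (hc j hj).odd q d hq hq2 hqd a
  two := fun d hd a => by
    rw [← sum_add_distrib, ← sum_add_distrib]
    exact sum_congr rfl fun j hj => (hc j hj).two d hd a

/-- the function on residues -/
noncomputable def Psi (φ : Finset (PF m) → (∀ i, GG m i) → ℤ) (a : ZMod m) : ℤ :=
  PsiN m φ a.val

variable {φ : Finset (PF m) → (∀ i, GG m i) → ℤ}

lemma Psi_cast (hφ : Dist (sg m) (tt m) φ) (x : ℕ) : Psi φ ((x : ℕ) : ZMod m) = PsiN m φ x := by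
  unfold Psi
  rw [ZMod.val_natCast, PsiN_mod hφ (NeZero.pos m)]

lemma Psi_od (hφ : Dist (sg m) (tt m) φ) (hm2 : ¬ 2 ∣ m) : OD (Psi φ) where
  neg := fun a => by
    unfold Psi
    rw [ZMod.neg_val]
    split_ifs with h
    · subst h
      rw [ZMod.val_zero, PsiN_zero hφ (NeZero.pos m), neg_zero]
    · exact PsiN_neg hφ (NeZero.pos m) (ZMod.val_lt a).le
  zero := by
    unfold Psi
    rw [ZMod.val_zero, PsiN_zero hφ (NeZero.pos m)]
  odd := fun q d hq _ hqd a => by
    have h1 := PsiN_dist hφ (NeZero.pos m) hq hqd a.val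
    rw [← Psi_cast hφ] at h1
    have h2 : (((q * a.val : ℕ)) : ZMod m) = (q : ZMod m) * a := by
      push_cast; rw [ZMod.natCast_zmod_val]
    rw [h2] at h1
    rw [← h1]
    refine sum_congr rfl fun i _ => ?_
    rw [← Psi_cast hφ]
    congr 1
    push_cast; rw [ZMod.natCast_zmod_val]
  two := fun d hd => absurd ⟨d, hd.symm⟩ hm2

lemma two_dvd_mul_iff {a b : ℤ} (ha : ¬ 2 ∣ a) : 2 ∣ a * b ↔ 2 ∣ b :=
  ⟨fun h => (Int.prime_two.dvd_or_dvd h).resolve_left ha, fun h => h.mul_left a⟩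

lemma addOrderOf_eq (a : ZMod m) : addOrderOf a = m / Nat.gcd a.val m := by
  conv_lhs => rw [← ZMod.natCast_zmod_val a]
  rw [ZMod.addOrderOf_coe _ (NeZero.ne m), Nat.gcd_comm]

lemma Psi_parity (hm2 : ¬ 2 ∣ m) {S : Finset (PF m)} (h1 : ∀ x, ¬ 2 ∣ φ S x)
    (h2 : ∀ U, U ≠ S → ∀ x, 2 ∣ φ U x) (a : ZMod m) :
    2 ∣ Psi φ a ↔ TT m (addOrderOf a) ≠ S := by
  unfold Psi PsiN
  rw [← addOrderOf_eq, mul_assoc, two_dvd_mul_iff, two_dvd_mul_iff]
  · constructor
    · intro h h'
      rw [h'] at h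
      exact h1 _ h
    · intro h
      exact h2 _ h _
  · intro h
    obtain ⟨i, _, hi'⟩ := (Int.prime_two.dvd_finsetProd_iff _).mp h
    have h3 : (2 : ℕ) ∣ (i : ℕ) := by exact_mod_cast hi'
    have hip : (i : ℕ).Prime := Fact.out
    exact pf_ne_two hm2 i ((Nat.prime_dvd_prime_iff_eq Nat.prime_two hip).mp h3).symm
  · intro h
    have h3 : (2 : ℕ) ∣ Nat.gcd a.val m := by exact_mod_cast h
    exact hm2 (h3.trans (Nat.gcd_dvd_right _ _))

end od

/-- elements whose order has a given set of prime divisors -/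
def Supp {m : ℕ} (S : Finset ℕ) (a : ZMod m) : Prop := (addOrderOf a).primeFactors = S

noncomputable instance {m : ℕ} (S : Finset ℕ) : DecidablePred (Supp (m := m) S) :=
  Classical.decPred _

lemma TT_eq_iff {m : ℕ} [NeZero m] {S : Finset ℕ} (hS : S ⊆ m.primeFactors) (a : ZMod m) :
    TT m (addOrderOf a) = univ.filter (fun i : PF m => (i : ℕ) ∈ S) ↔ Supp S a := by
  have hd : addOrderOf a ∣ m := addOrderOf_dvd_level a
  have hpos : addOrderOf a ≠ 0 := (addOrderOf_pos a).ne'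
  unfold Supp
  constructor
  · intro h
    ext x
    rw [Nat.mem_primeFactors]
    constructor
    · rintro ⟨hx, hxa, _⟩
      have hxm : x ∈ m.primeFactors := Nat.mem_primeFactors.mpr ⟨hx, hxa.trans hd, NeZero.ne m⟩
      have h1 : (⟨x, hxm⟩ : PF m) ∈ TT m (addOrderOf a) := mem_TT.mpr hxa
      rw [h, mem_filter] at h1
      exact h1.2
    · intro hx
      have hxm := hS hx
      have h1 : (⟨x, hxm⟩ : PF m) ∈ univ.filter (fun i : PF m => (i : ℕ) ∈ S) :=
        mem_filter.mpr ⟨mem_univ _, hx⟩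
      rw [← h, mem_TT] at h1
      exact ⟨Nat.prime_of_mem_primeFactors hxm, h1, hpos⟩
  · intro h
    ext i
    rw [mem_TT, mem_filter, ← h, Nat.mem_primeFactors]
    have hip : (i : ℕ).Prime := Fact.out
    simp [hip, hpos]

lemma countP_parity {α : Type} (P : α → Prop) [DecidablePred P] (Ψ : α → ℤ)
    (h : ∀ a, 2 ∣ Ψ a ↔ ¬ P a) (s : Multiset α) (h0 : (s.map Ψ).sum = 0) :
    Even (s.countP P) := by
  have key : ∀ s : Multiset α, (2 : ℤ) ∣ (s.map Ψ).sum - (s.countP P : ℤ) := by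
    intro s
    induction s using Multiset.induction_on with
    | empty => simp
    | cons a s ih =>
      rw [Multiset.map_cons, Multiset.sum_cons, Multiset.countP_cons]
      have h1 := h a
      by_cases hP : P a
      · rw [if_pos hP]
        have h2 : ¬ 2 ∣ Ψ a := fun h' => (h1.mp h') hP
        push_cast
        omega
      · rw [if_neg hP]
        have h2 : 2 ∣ Ψ a := h1.mpr hP
        push_cast
        omega
  have h1 := key s
  rw [h0] at h1
  rw [Nat.even_iff]
  omega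

variable {p : ℕ}

theorem parity_odd {m : ℕ} [NeZero m] (hm2 : ¬ 2 ∣ m) (hp : p.Coprime m)
    (hf : Odd (orderOf (p : ZMod m))) (hQR : PQR m) {s : Multiset (ZMod m)} (hs : Rel0 p s)
    (S : Finset ℕ) (hS : S.Nonempty) : Even (s.countP (Supp S)) := by
  by_cases hSm : S ⊆ m.primeFactors
  · obtain ⟨x, hx⟩ := hS
    have hS' : (univ.filter (fun i : PF m => (i : ℕ) ∈ S)).Nonempty :=
      ⟨⟨x, hSm hx⟩, mem_filter.mpr ⟨mem_univ _, hx⟩⟩
    obtain ⟨φ, hφ, hφ1, hφ2⟩ := exists_coords hm2 hQR _ hS'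
    have hu := isUnit_p hp
    obtain ⟨u, hu'⟩ := hu
    set f := orderOf (p : ZMod m) with hfdef
    set Ψ : ZMod m → ℤ := fun a => ∑ j ∈ range f, Psi φ (((u ^ j : (ZMod m)ˣ) : ZMod m) * a)
      with hΨ
    have hOD : OD Ψ := OD.sum fun j _ => OD.unit (Psi_od hφ hm2) hm2 (u ^ j)
    have hinv : ∀ a, Ψ ((p : ZMod m) * a) = Ψ a := by
      intro a
      simp only [hΨ]
      have h1 := Finset.sum_range_succ
        (fun j => Psi φ (((u ^ j : (ZMod m)ˣ) : ZMod m) * a)) f
      have h2 := Finset.sum_range_succ'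
        (fun j => Psi φ (((u ^ j : (ZMod m)ˣ) : ZMod m) * a)) f
      have h3 : (((u ^ f : (ZMod m)ˣ) : ZMod m) * a) = ((u ^ 0 : (ZMod m)ˣ) : ZMod m) * a := by
        rw [Units.val_pow_eq_pow_val, hu', pow_order]
        simp
      rw [h1, h3] at h2
      have h4 := add_right_cancel h2
      rw [h4]
      refine sum_congr rfl fun j _ => ?_
      rw [pow_succ, Units.val_mul, hu', mul_assoc]
    obtain ⟨k, hk, hk0⟩ := H916D.torsion_sum hp hOD hinv s hs
    have hsum : (s.map Ψ).sum = 0 := by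
      rw [nsmul_eq_mul] at hk0
      rcases mul_eq_zero.mp hk0 with h | h
      · exact absurd (by exact_mod_cast h) hk.ne'
      · exact h
    refine countP_parity _ Ψ ?_ s hsum
    intro a
    have hord : ∀ j, addOrderOf (((u ^ j : (ZMod m)ˣ) : ZMod m) * a) = addOrderOf a := by
      intro j
      have h3 : ∀ k : ℕ, k • (((u ^ j : (ZMod m)ˣ) : ZMod m) * a) = 0 ↔ k • a = 0 := by
        intro k
        rw [nsmul_eq_mul, nsmul_eq_mul, mul_left_comm]
        exact (u ^ j : (ZMod m)ˣ).isUnit.mul_right_eq_zero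
      apply Nat.dvd_antisymm
      · rw [addOrderOf_dvd_iff_nsmul_eq_zero, h3]
        exact addOrderOf_nsmul_eq_zero _
      · rw [addOrderOf_dvd_iff_nsmul_eq_zero, ← h3]
        exact addOrderOf_nsmul_eq_zero _
    have hpar : ∀ j, 2 ∣ Psi φ (((u ^ j : (ZMod m)ˣ) : ZMod m) * a) ↔ ¬ Supp S a := by
      intro j
      rw [Psi_parity hm2 hφ1 hφ2, hord, Ne, TT_eq_iff hSm]
    constructor
    · intro h hS2
      -- all terms odd, number of terms odd
      have h5 : (2 : ℤ) ∣ ∑ j ∈ range f, (Psi φ (((u ^ j : (ZMod m)ˣ) : ZMod m) * a) - 1) := by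
        apply Finset.dvd_sum
        intro j _
        have := (hpar j).not.mpr (not_not.mpr hS2)
        omega
      rw [sum_sub_distrib, sum_const, card_range, nsmul_eq_mul, mul_one] at h5
      have h6 : (2 : ℤ) ∣ (f : ℤ) := by
        have h7 : (2 : ℤ) ∣ ∑ j ∈ range f, Psi φ (((u ^ j : (ZMod m)ˣ) : ZMod m) * a) := h
        omega
      obtain ⟨r, hr⟩ := hf
      omega
    · intro h
      apply Finset.dvd_sum
      intro j _
      exact (hpar j).mpr h
  · have h1 : s.countP (Supp S) = 0 := by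
      rw [Multiset.countP_eq_zero]
      intro a _ ha
      apply hSm
      rw [← ha]
      exact Nat.primeFactors_mono (addOrderOf_dvd_level a) (NeZero.ne m)
    rw [h1]
    exact Even.zero

end Pool.Agent.H916Q
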