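import Pool.Agent.H916Q.Assemble
import Pool.Agent.H916D.Sign

/-!
# Signs
-/

set_option linter.unusedSectionVars false

namespace Pool.Agent.H916Q

open Finset Pool.Agent.H916R2 Pool.Agent.H916T Pool.Agent.H916U Pool.Agent.H916Z Pool.Agent.H916D

variable {p : ℕ} {A : (m : ℕ) → Multiset (ZMod m) → Prop}
  {σ : (m : ℕ) → Multiset (ZMod m) → ℤˣ}

theorem sign_of_gen (hA : SignSystem p A σ) {m : ℕ} (hm : 0 < m) (hpm : p.Coprime m)
    {s : Multiset (ZMod m)} (hne : s ≠ 0)
    (h : ∃ N : ℕ, 0 < N ∧ p.Coprime N ∧ ∀ M : ℕ, N * m = M →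
      H916T.Generated M (ZBase p M) (s.map (iota N : ZMod m → ZMod M))) :
    A m s ∧ σ m s = 1 := by
  obtain ⟨N, hN0, hpN, hgen⟩ := h
  have hNz : NeZero (N * m) := ⟨Nat.mul_ne_zero hN0.ne' hm.ne'⟩
  have hpM : p.Coprime (N * m) := Nat.Coprime.mul_right hpN hpm
  obtain ⟨h1, h2⟩ := sign_of_generated hA (dvd_refl (N * m)) hpM (hgen (N * m) rfl)
    (fun h => hne (Multiset.map_eq_zero.mp h))
  have h3 := (hA.algebraic.raise N m s hm hN0 hpM).mpr h1
  exact ⟨h3, by rw [← hA.raise N m s hm hN0 hpM h3]; exact h2⟩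

theorem sign_qr {m n k : ℕ} (hp : p.Prime) (hA : SignSystem p A σ) (hn : 0 < n)
    (hk : k = 1 ∨ k = 2) (hkn : k * n = m) (hn2 : ¬ 2 ∣ n) (hpm : p.Coprime m)
    (hf : Odd (orderOf (p : ZMod m))) (hQR : PQR n)
    {s : Multiset (ZMod m)} (hs : IsTate p m s) (hne : s ≠ 0) : A m s ∧ σ m s = 1 := by
  have hm : 0 < m := by rw [← hkn]; exact Nat.mul_pos (by omega) hn
  exact sign_of_gen hA hm hpm hne (qr_main hp hn hk hkn hn2 hpm hf hQR hs hne)

open scoped Classical in
/-- the sign depends only on the parities -/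
theorem sign_parity {m : ℕ} (hp : p.Prime) (hA : SignSystem p A σ) (hm : 0 < m) (hm4 : ¬ 4 ∣ m)
    (hpm : p.Coprime m) {s s' : Multiset (ZMod m)} (hs : A m s) (hs' : A m s') (hne : s ≠ 0)
    (hpar : ∀ a : ZMod m, Even (s.countP (fun b => Relation.EqvGen (Link p) a b) +
      s'.countP (fun b => Relation.EqvGen (Link p) a b))) : σ m s = σ m s' := by
  have h1 : IsTate p m (s + s') := hA.algebraic.tate m _ hpm (hA.algebraic.join m s s' hpm hs hs')
  have hne' : s + s' ≠ 0 := by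
    intro h
    have := congrArg Multiset.card h
    rw [Multiset.card_add, Multiset.card_zero] at this
    exact hne (Multiset.card_eq_zero.mp (by omega))
  have h2 := sign_of_gen hA hm hpm hne' (parity_main hp (hu_all hp) (hb_all hp) hm hm4 hpm h1 hne'
    (fun a => by rw [Multiset.countP_add]; exact hpar a))
  have h3 := hA.join m s s' hpm hs hs'
  rw [h2.2] at h3
  calc σ m s = σ m s * (σ m s' * σ m s') := by rw [Int.units_mul_self, mul_one]
    _ = (σ m s * σ m s') * σ m s' := by rw [mul_assoc]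
    _ = σ m s' := by rw [← h3, one_mul]

end Pool.Agent.H916Q
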