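import Pool.Agent.H916Q.Dist

/-!
# From coordinates to residues
-/

set_option linter.unusedSectionVars false

namespace Pool.Agent.H916Q

open Finset

section Congr

variable {ι : Type} [DecidableEq ι] {G : ι → Type} [∀ i, CommGroup (G i)]

lemma eq_of_ind {f : (∀ i, G i) → ℤ} : ∀ (K : Finset ι), (∀ k ∈ K, Ind k f) →
    ∀ x y : (∀ i, G i), (∀ i, i ∉ K → x i = y i) → f x = f y := by
  intro K
  induction K using Finset.induction_on with
  | empty =>
    intro _ x y h
    congr 1
    funext i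
    exact h i (by simp)
  | insert a K _ ih =>
    intro hK x y h
    have h1 : f (Pi.mulSingle a (y a * (x a)⁻¹) * x) = f x := hK a (mem_insert_self _ _) _ _
    rw [← h1]
    refine ih (fun k hk => hK k (mem_insert_of_mem hk)) _ _ ?_
    intro i hi
    by_cases hia : i = a
    · subst hia
      rw [Pi.mul_apply, Pi.mulSingle_eq_same, mul_assoc, inv_mul_cancel, mul_one]
    · rw [Pi.mul_apply, Pi.mulSingle_eq_of_ne hia, one_mul]
      exact h i (fun h' => (mem_insert.mp h').elim hia hi)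

variable [Fintype ι] [∀ i, Fintype (G i)] [∀ i, DecidableEq (G i)]

lemma Dist.congr {σ : ∀ i, G i} {t : ι → ∀ i, G i} {φ : Finset ι → (∀ i, G i) → ℤ}
    (hφ : Dist σ t φ) {U : Finset ι} {x y : ∀ i, G i} (h : ∀ i ∈ U, x i = y i) :
    φ U x = φ U y := by
  refine eq_of_ind Uᶜ (fun k hk => hφ.ind U k (mem_compl.mp hk)) x y ?_
  intro i hi
  exact h i (by simpa using hi)

end Congr

/-- the index type -/
abbrev PF (m : ℕ) : Type := {x // x ∈ m.primeFactors}

instance instFactPF (m : ℕ) (i : PF m) : Fact (Nat.Prime (i : ℕ)) :=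
  ⟨Nat.prime_of_mem_primeFactors i.2⟩

/-- the coordinate groups -/
abbrev GG (m : ℕ) (i : PF m) : Type := (ZMod (i : ℕ))ˣ

/-- minus one -/
def sg (m : ℕ) : ∀ i, GG m i := fun _ => -1

/-- the vector of an integer -/
noncomputable def vec (m x : ℕ) : ∀ i, GG m i := fun i =>
  if h : (x : ZMod (i : ℕ)) ≠ 0 then Units.mk0 _ h else 1

/-- the translations -/
noncomputable def tt (m : ℕ) (j : PF m) : ∀ i, GG m i := (vec m (j : ℕ))⁻¹

/-- the primes dividing `n` -/
def TT (m n : ℕ) : Finset (PF m) := univ.filter (fun i => (i : ℕ) ∣ n)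

lemma mem_TT {m n : ℕ} {i : PF m} : i ∈ TT m n ↔ (i : ℕ) ∣ n := by simp [TT]

lemma vec_val {m x : ℕ} {i : PF m} (h : ¬ (i : ℕ) ∣ x) : ((vec m x i : GG m i) : ZMod (i : ℕ)) = x := by
  have h' : (x : ZMod (i : ℕ)) ≠ 0 := fun h0 => h ((ZMod.natCast_eq_zero_iff _ _).mp h0)
  unfold vec
  rw [dif_pos h']
  rfl

lemma vec_val_zero {m x : ℕ} {i : PF m} (h : (i : ℕ) ∣ x) : vec m x i = 1 := by
  have h' : ¬ (x : ZMod (i : ℕ)) ≠ 0 := fun h0 => h0 ((ZMod.natCast_eq_zero_iff _ _).mpr h)
  unfold vec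
  rw [dif_neg h']

variable {m : ℕ} {φ : Finset (PF m) → (∀ i, GG m i) → ℤ}

/-- the function on integers -/
noncomputable def PsiN (m : ℕ) (φ : Finset (PF m) → (∀ i, GG m i) → ℤ) (x : ℕ) : ℤ :=
  (Nat.gcd x m : ℤ) * (∏ i ∈ TT m (m / Nat.gcd x m), ((i : ℕ) : ℤ)) *
    φ (TT m (m / Nat.gcd x m)) (vec m (x / Nat.gcd x m))

lemma PsiN_eval {x g x' n : ℕ} (hg : 0 < g) (hx : x = g * x') (hm : m = g * n)
    (hc : Nat.Coprime x' n) : PsiN m φ x =
      (g : ℤ) * (∏ i ∈ TT m n, ((i : ℕ) : ℤ)) * φ (TT m n) (vec m x') := by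
  have h1 : Nat.gcd x m = g := by
    rw [hx, hm, Nat.gcd_mul_left, hc.gcd_eq_one, mul_one]
  unfold PsiN
  rw [h1]
  have h2 : m / g = n := by rw [hm, Nat.mul_div_cancel_left n hg]
  have h3 : x / g = x' := by rw [hx, Nat.mul_div_cancel_left x' hg]
  rw [h2, h3]

lemma exists_dec (hm0 : 0 < m) (x : ℕ) : ∃ g x' n : ℕ, 0 < g ∧ x = g * x' ∧ m = g * n ∧
    Nat.Coprime x' n := by
  have hg : 0 < Nat.gcd x m := Nat.gcd_pos_of_pos_right x hm0
  exact ⟨Nat.gcd x m, x / Nat.gcd x m, m / Nat.gcd x m, hg,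
    (Nat.mul_div_cancel' (Nat.gcd_dvd_left x m)).symm,
    (Nat.mul_div_cancel' (Nat.gcd_dvd_right x m)).symm, Nat.coprime_div_gcd_div_gcd hg⟩

lemma not_dvd_of_coprime {x n q : ℕ} (hq : q.Prime) (hc : Nat.Coprime x n) (h : q ∣ n) :
    ¬ q ∣ x := by
  intro h'
  have h1 := Nat.dvd_gcd h' h
  rw [hc.gcd_eq_one] at h1
  exact hq.one_lt.ne' (Nat.dvd_one.mp h1)

variable (hφ : Dist (sg m) (tt m) φ)

include hφ

lemma phi_congr {n x y : ℕ} (hx : Nat.Coprime x n)
    (h : ∀ i : PF m, (i : ℕ) ∣ n → ((x : ℕ) : ZMod (i : ℕ)) = ((y : ℕ) : ZMod (i : ℕ))) :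
    φ (TT m n) (vec m x) = φ (TT m n) (vec m y) := by
  refine hφ.congr fun i hi => ?_
  rw [mem_TT] at hi
  have hip : (i : ℕ).Prime := Fact.out
  have h1 : ¬ (i : ℕ) ∣ x := not_dvd_of_coprime hip hx hi
  have h2 : ¬ (i : ℕ) ∣ y := by
    intro h'
    apply h1
    rw [← ZMod.natCast_eq_zero_iff] at h' ⊢
    rw [h i hi, h']
  apply Units.ext
  rw [vec_val h1, vec_val h2, h i hi]

lemma PsiN_add (hm0 : 0 < m) (x : ℕ) : PsiN m φ (x + m) = PsiN m φ x := by
  obtain ⟨g, x', n, hg, hx, hm, hc⟩ := exists_dec hm0 x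
  rw [PsiN_eval hg hx hm hc, PsiN_eval (x := x + m) (g := g) (x' := x' + n) (n := n) hg
    (by rw [hx, mul_add, ← hm]) hm (by rwa [Nat.coprime_add_self_left])]
  congr 1
  refine phi_congr hφ (by rwa [Nat.coprime_add_self_left]) ?_
  intro i hi
  have h0 : ((n : ℕ) : ZMod (i : ℕ)) = 0 := (ZMod.natCast_eq_zero_iff _ _).mpr hi
  push_cast
  rw [h0, add_zero]

lemma PsiN_neg (hm0 : 0 < m) {x : ℕ} (hx0 : x ≤ m) : PsiN m φ (m - x) = - PsiN m φ x := by
  obtain ⟨g, x', n, hg, hx, hm, hc⟩ := exists_dec hm0 x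
  have hxn : x' ≤ n := by
    rw [hx, hm] at hx0
    exact Nat.le_of_mul_le_mul_left hx0 hg
  have hc' : Nat.Coprime (n - x') n := by
    have h1 : Nat.Coprime (n - x') x' := (Nat.coprime_sub_self_left hxn).mpr hc.symm
    have h2 : Nat.Coprime (n - x') (x' + (n - x')) := by rwa [Nat.coprime_add_self_right]
    rwa [Nat.add_sub_cancel' hxn] at h2
  rw [PsiN_eval hg hx hm hc, PsiN_eval (x := m - x) (g := g) (x' := n - x') (n := n) hg
    (by rw [hx, Nat.mul_sub, ← hm]) hm hc', ← mul_neg, ← hφ.odd]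
  congr 1
  refine hφ.congr fun i hi => ?_
  rw [mem_TT] at hi
  have hip : (i : ℕ).Prime := Fact.out
  have h1 : ¬ (i : ℕ) ∣ x' := not_dvd_of_coprime hip hc hi
  have h2 : ¬ (i : ℕ) ∣ n - x' := not_dvd_of_coprime hip hc' hi
  apply Units.ext
  rw [Pi.mul_apply, Units.val_mul, vec_val h1, vec_val h2]
  have h0 : ((n : ℕ) : ZMod (i : ℕ)) = 0 := (ZMod.natCast_eq_zero_iff _ _).mpr hi
  rw [Nat.cast_sub hxn, h0]
  simp [sg]

lemma PsiN_zero (hm0 : 0 < m) : PsiN m φ 0 = 0 := by
  have h := PsiN_eval (m := m) (φ := φ) (x := 0) (g := m) (x' := 0) (n := 1) hm0 (by simp)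
    (by simp) (by simp)
  rw [h]
  have h1 : TT m 1 = ∅ := by
    rw [Finset.eq_empty_iff_forall_notMem]
    intro i hi
    rw [mem_TT] at hi
    have hip : (i : ℕ).Prime := Fact.out
    exact hip.one_lt.ne' (Nat.dvd_one.mp hi)
  rw [h1, hφ.zero, mul_zero]

/-- first case of the distribution relation -/
lemma case_one {q d x g x' n1 : ℕ} (hq : q.Prime) (hqd : q * d = m) (hg : 0 < g)
    (hx : x = g * x') (hm : m = g * (q * n1)) (hc : Nat.Coprime x' (q * n1)) (hqn : q ∣ n1) :
    ∑ i ∈ range q, PsiN m φ (x + i * d) = PsiN m φ (q * x) := by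
  have hd : d = g * n1 := by
    have : q * d = q * (g * n1) := by rw [hqd, hm]; ring
    exact Nat.eq_of_mul_eq_mul_left hq.pos this
  have hT : TT m (q * n1) = TT m n1 := by
    ext i
    rw [mem_TT, mem_TT]
    have hip : (i : ℕ).Prime := Fact.out
    constructor
    · intro h
      rcases hip.dvd_mul.mp h with h | h
      · rw [(Nat.prime_dvd_prime_iff_eq hip hq).mp h]; exact hqn
      · exact h
    · exact fun h => h.mul_left q
  have hc1 : Nat.Coprime x' n1 := Nat.Coprime.coprime_mul_left_right hc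
  have h1 : ∀ i ∈ range q, PsiN m φ (x + i * d) =
      (g : ℤ) * (∏ i ∈ TT m (q * n1), ((i : ℕ) : ℤ)) * φ (TT m (q * n1)) (vec m x') := by
    intro i _
    have hci : Nat.Coprime (x' + i * n1) (q * n1) := by
      apply Nat.Coprime.mul_right
      · obtain ⟨e, he⟩ := hqn
        have : x' + i * n1 = x' + q * (i * e) := by rw [he]; ring
        rw [this, Nat.coprime_add_mul_left_left]
        exact Nat.Coprime.coprime_mul_right_right hc
      · rw [Nat.coprime_add_mul_right_left]; exact hc1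
    rw [PsiN_eval (x := x + i * d) (g := g) (x' := x' + i * n1) (n := q * n1) hg
      (by rw [hx, hd]; ring) hm hci]
    congr 1
    refine phi_congr hφ hci ?_
    intro j hj
    rw [← mem_TT (m := m), hT, mem_TT] at hj
    have h0 : ((n1 : ℕ) : ZMod (j : ℕ)) = 0 := (ZMod.natCast_eq_zero_iff _ _).mpr hj
    push_cast
    rw [h0, mul_zero, add_zero]
  rw [sum_congr rfl h1, sum_const, card_range, PsiN_eval (x := q * x) (g := g * q) (x' := x')
    (n := n1) (Nat.mul_pos hg hq.pos) (by rw [hx]; ring) (by rw [hm]; ring) hc1, hT]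
  push_cast
  rw [nsmul_eq_mul]
  ring

/-- second case of the distribution relation -/
lemma case_two {q d x g x' n : ℕ} (hq : q.Prime) (hqm : q ∈ m.primeFactors) (hqd : q * d = m)
    (hg : 0 < g) (hx : x = g * x') (hm : m = g * n) (hc : Nat.Coprime x' n) (hqn : ¬ q ∣ n) :
    ∑ i ∈ range q, PsiN m φ (x + i * d) = PsiN m φ (q * x) := by
  have hqf : Fact q.Prime := ⟨hq⟩
  obtain ⟨g1, hg1⟩ : q ∣ g := by
    have h1 : q ∣ g * n := by rw [← hm]; exact Dvd.intro d hqd
    exact (hq.dvd_mul.mp h1).resolve_right hqn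
  have hg10 : 0 < g1 := Nat.pos_of_ne_zero (by rintro rfl; simp at hg1; omega)
  have hd : d = g1 * n := by
    have : q * d = q * (g1 * n) := by rw [hqd, hm, hg1]; ring
    exact Nat.eq_of_mul_eq_mul_left hq.pos this
  have hn : 0 < n := by
    rcases Nat.eq_zero_or_pos n with h | h
    · rw [h] at hqn; exact absurd (dvd_zero q) hqn
    · exact h
  set Q : PF m := ⟨q, hqm⟩ with hQ
  have hQT : Q ∉ TT m n := by rw [mem_TT]; exact hqn
  have hT : TT m (q * n) = insert Q (TT m n) := by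
    ext i
    rw [mem_TT, mem_insert, mem_TT]
    have hip : (i : ℕ).Prime := Fact.out
    constructor
    · intro h
      rcases hip.dvd_mul.mp h with h | h
      · left; exact Subtype.ext ((Nat.prime_dvd_prime_iff_eq hip hq).mp h)
      · right; exact h
    · rintro (rfl | h)
      · exact Dvd.intro n rfl
      · exact h.mul_left q
  have hcq : Nat.Coprime q n := (hq.coprime_iff_not_dvd).mpr hqn
  have hcqx : Nat.Coprime (q * x') n := Nat.Coprime.mul_left hcq hc
  rw [← Finset.add_sum_erase (range q) _ (mem_range.mpr hq.pos)]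
  rw [zero_mul, add_zero, PsiN_eval hg hx hm hc, PsiN_eval (x := q * x) (g := g) (x' := q * x')
    (n := n) hg (by rw [hx]; ring) hm hcqx]
  have hprod : (g1 : ℤ) * ∏ i ∈ TT m (q * n), ((i : ℕ) : ℤ) =
      (g : ℤ) * ∏ i ∈ TT m n, ((i : ℕ) : ℤ) := by
    rw [hT, prod_insert hQT, hg1]
    push_cast; ring
  have h1 : ∀ i ∈ (range q).erase 0, PsiN m φ (x + i * d) =
      (g : ℤ) * (∏ i ∈ TT m n, ((i : ℕ) : ℤ)) *
        φ (insert Q (TT m n)) (Pi.mulSingle Q (vec m (i * n) Q) * vec m (q * x')) := by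
    intro i hi
    have hi' := mem_erase.mp hi
    have hiq : ¬ q ∣ i := fun h => by
      have h2 := Nat.le_of_dvd (Nat.pos_of_ne_zero hi'.1) h
      have h3 := mem_range.mp hi'.2
      omega
    have hin : ¬ q ∣ i * n := by
      intro h
      rcases hq.dvd_mul.mp h with h | h
      · exact hiq h
      · exact hqn h
    have hc1 : Nat.Coprime (q * x' + i * n) (q * n) := by
      apply Nat.Coprime.mul_right
      · rw [Nat.coprime_comm, hq.coprime_iff_not_dvd]
        intro h
        exact hin ((Nat.dvd_add_right (Dvd.intro x' rfl)).mp h)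
      · rw [Nat.coprime_add_mul_right_left]; exact hcqx
    rw [PsiN_eval (x := x + i * d) (g := g1) (x' := q * x' + i * n) (n := q * n) hg10
      (by rw [hx, hd, hg1]; ring) (by rw [hm, hg1]; ring) hc1, hprod, ← hT]
    congr 1
    refine hφ.congr fun j hj => ?_
    rw [mem_TT] at hj
    have hjp : (j : ℕ).Prime := Fact.out
    apply Units.ext
    rw [vec_val (not_dvd_of_coprime hjp hc1 hj), Pi.mul_apply]
    by_cases hjQ : j = Q
    · subst hjQ
      rw [Pi.mulSingle_eq_same, vec_val_zero (i := Q) (Dvd.intro x' rfl), mul_one, vec_val hin]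
      have h0 : ((q : ℕ) : ZMod ((Q : PF m) : ℕ)) = 0 := (ZMod.natCast_eq_zero_iff _ _).mpr
        (dvd_refl q)
      push_cast
      rw [h0, zero_mul, zero_add]
    · rw [Pi.mulSingle_eq_of_ne hjQ, one_mul]
      have hjn : (j : ℕ) ∣ n := by
        have h2 : j ∈ TT m (q * n) := mem_TT.mpr hj
        rw [hT, mem_insert, mem_TT] at h2
        exact h2.resolve_left hjQ
      rw [vec_val (not_dvd_of_coprime hjp hcqx hjn)]
      have h0 : ((n : ℕ) : ZMod (j : ℕ)) = 0 := (ZMod.natCast_eq_zero_iff _ _).mpr hjn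
      push_cast
      rw [h0, mul_zero, add_zero]
  rw [sum_congr rfl h1, ← mul_sum, ← mul_add]
  congr 1
  -- the relation in coordinates
  have h2 := congrFun (hφ.rel (insert Q (TT m n)) Q (mem_insert_self _ _)) (vec m (q * x'))
  rw [erase_insert hQT] at h2
  unfold DD at h2
  have h3 : φ (TT m n) (tt m Q * vec m (q * x')) = φ (TT m n) (vec m x') := by
    refine hφ.congr fun j hj => ?_
    rw [mem_TT] at hj
    have hjp : (j : ℕ).Prime := Fact.out
    have hjq : ¬ (j : ℕ) ∣ q := by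
      intro h
      apply hqn
      rw [← (Nat.prime_dvd_prime_iff_eq hjp hq).mp h]
      exact hj
    unfold tt
    rw [Pi.mul_apply, Pi.inv_apply, inv_mul_eq_iff_eq_mul]
    apply Units.ext
    rw [Units.val_mul, vec_val (not_dvd_of_coprime hjp hcqx hj),
      vec_val (not_dvd_of_coprime hjp hc hj), vec_val hjq]
    push_cast; rfl
  rw [h3] at h2
  have h4 : ∑ i ∈ (range q).erase 0, φ (insert Q (TT m n))
      (Pi.mulSingle Q (vec m (i * n) Q) * vec m (q * x')) =
      NN Q (φ (insert Q (TT m n))) (vec m (q * x')) := by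
    unfold NN
    have hinq : ∀ i ∈ (range q).erase 0, ¬ q ∣ i * n := by
      intro i hi h
      have hi' := mem_erase.mp hi
      rcases hq.dvd_mul.mp h with h | h
      · have h2 := Nat.le_of_dvd (Nat.pos_of_ne_zero hi'.1) h
        have h3 := mem_range.mp hi'.2
        omega
      · exact hqn h
    refine Finset.sum_bij (fun i _ => vec m (i * n) Q) ?_ ?_ ?_ ?_
    · intro i _; exact mem_univ _
    · intro i hi j hj h
      have h5 := congrArg Units.val h
      rw [vec_val (hinq i hi), vec_val (hinq j hj)] at h5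
      have h6 : i * n ≡ j * n [MOD q] := (ZMod.natCast_eq_natCast_iff _ _ _).mp h5
      have h7 : i ≡ j [MOD q] := Nat.ModEq.cancel_right_of_coprime hcq h6
      have h8 : i % q = j % q := h7
      rwa [Nat.mod_eq_of_lt (mem_range.mp (mem_erase.mp hi).2),
        Nat.mod_eq_of_lt (mem_range.mp (mem_erase.mp hj).2)] at h8
    · intro y _
      have hnz : ((n : ℕ) : ZMod q) ≠ 0 := fun h => hqn ((ZMod.natCast_eq_zero_iff _ _).mp h)
      set i : ℕ := ((y : ZMod q) * ((n : ℕ) : ZMod q)⁻¹).val with hi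
      have h5 : ((i : ℕ) : ZMod q) * ((n : ℕ) : ZMod q) = (y : ZMod q) := by
        rw [hi, ZMod.natCast_zmod_val, mul_assoc, inv_mul_cancel₀ hnz, mul_one]
      have hi0 : i ≠ 0 := by
        intro h
        rw [h, Nat.cast_zero, zero_mul] at h5
        exact y.ne_zero h5.symm
      have him : i ∈ (range q).erase 0 := mem_erase.mpr ⟨hi0, mem_range.mpr (ZMod.val_lt _)⟩
      refine ⟨i, him, ?_⟩
      apply Units.ext
      rw [vec_val (hinq i him)]
      push_cast
      exact h5
    · intro i _; rfl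
  rw [h4, h2]
  ring

/-- the distribution relation -/
theorem PsiN_dist (hm0 : 0 < m) {q d : ℕ} (hq : q.Prime) (hqd : q * d = m) (x : ℕ) :
    ∑ i ∈ range q, PsiN m φ (x + i * d) = PsiN m φ (q * x) := by
  have hqm : q ∈ m.primeFactors := Nat.mem_primeFactors.mpr ⟨hq, Dvd.intro d hqd, hm0.ne'⟩
  obtain ⟨g, x', n, hg, hx, hm, hc⟩ := exists_dec hm0 x
  by_cases hqn : q ∣ n
  · obtain ⟨n1, rfl⟩ := hqn
    by_cases hqn1 : q ∣ n1
    · exact case_one hφ hq hqd hg hx hm hc hqn1
    · -- shift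
      have hd : d = g * n1 := by
        have : q * d = q * (g * n1) := by rw [hqd, hm]; ring
        exact Nat.eq_of_mul_eq_mul_left hq.pos this
      have hn1 : 0 < n1 := Nat.pos_of_ne_zero (by rintro rfl; exact hqn1 (dvd_zero q))
      have hqf : Fact q.Prime := ⟨hq⟩
      have hcq : Nat.Coprime q n1 := (hq.coprime_iff_not_dvd).mpr hqn1
      obtain ⟨j, hj⟩ : ∃ j : ℕ, q ∣ x' + j * n1 := by
        have hnz : ((n1 : ℕ) : ZMod q) ≠ 0 := fun h => hqn1 ((ZMod.natCast_eq_zero_iff _ _).mp h)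
        refine ⟨(-((x' : ℕ) : ZMod q) * ((n1 : ℕ) : ZMod q)⁻¹).val, ?_⟩
        rw [← ZMod.natCast_eq_zero_iff]
        push_cast
        rw [ZMod.natCast_zmod_val, mul_assoc, inv_mul_cancel₀ hnz, mul_one, add_neg_cancel]
      obtain ⟨x'', hx''⟩ := hj
      have hc1 : Nat.Coprime x' n1 := Nat.Coprime.coprime_mul_left_right hc
      have hc2 : Nat.Coprime x'' n1 := by
        have h1 : Nat.Coprime (x' + j * n1) n1 := by
          rw [Nat.coprime_add_mul_right_left]; exact hc1
        rw [hx''] at h1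
        exact Nat.Coprime.coprime_mul_left h1
      have h2 := case_two hφ (x := x + j * d) (g := g * q) (x' := x'') (n := n1) hq hqm hqd
        (Nat.mul_pos hg hq.pos) (by rw [hx, hd, mul_assoc, ← hx'']; ring) (by rw [hm]; ring)
        hc2 hqn1
      have hper : ∀ i, PsiN m φ (x + (i + q) * d) = PsiN m φ (x + i * d) := by
        intro i
        rw [← PsiN_add hφ hm0 (x + i * d)]
        congr 1
        rw [← hqd]; ring
      have hshift : ∀ k : ℕ, ∑ i ∈ range q, PsiN m φ (x + (i + k) * d) =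
          ∑ i ∈ range q, PsiN m φ (x + i * d) := by
        intro k
        induction k with
        | zero => rfl
        | succ k ih =>
          rw [← ih]
          have h3 := Finset.sum_range_succ (fun i => PsiN m φ (x + (i + k) * d)) q
          have h4 := Finset.sum_range_succ' (fun i => PsiN m φ (x + (i + k) * d)) q
          have h5 : PsiN m φ (x + (q + k) * d) = PsiN m φ (x + (0 + k) * d) := by
            rw [add_comm q k, hper, zero_add]
          rw [h3, h5] at h4
          have h6 := add_right_cancel h4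
          rw [h6]
          refine sum_congr rfl fun i _ => ?_
          congr 2
          ring
      have hmulper : ∀ k : ℕ, PsiN m φ (q * (x + k * d)) = PsiN m φ (q * x) := by
        intro k
        induction k with
        | zero => simp
        | succ k ih =>
          rw [← ih, ← PsiN_add hφ hm0 (q * (x + k * d))]
          congr 1
          rw [← hqd]; ring
      rw [hmulper] at h2
      rw [← h2, ← hshift j]
      refine sum_congr rfl fun i _ => ?_
      congr 1
      ring
  · exact case_two hφ hq hqm hqd hg hx hm hc hqn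

lemma PsiN_mod (hm0 : 0 < m) (x : ℕ) : PsiN m φ (x % m) = PsiN m φ x := by
  have hper : Function.Periodic (PsiN m φ) m := fun x => PsiN_add hφ hm0 x
  exact hper.map_mod_nat x

end Pool.Agent.H916Q
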